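import Mathlib

/-!
# The coset graph of an amalgam is a tree
(helper39, for MP_29a457_al; only Mathlib)

`G` a group with subgroups `A`, `B` generating `G` such that no reduced product
`a₁ b₁ a₂ ⋯ aₙ` (`aᵢ ∈ A ∖ B`, `bᵢ ∈ B ∖ A`) lies in `B`.  Then the bipartite graph on
`G ⧸ B ⊕ G ⧸ A` in which two cosets are adjacent iff they meet is a tree.
-/

namespace Pool.Agent.Work.MP_29a457_al.CosetTree

open SimpleGraph

variable {G : Type*} [Group G] (A B : Subgroup G)

/-- reduced products `a₁ b₁ a₂ ⋯ aₙ`, `n ≥ 1` -/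
inductive Red : G → Prop
  | single (a : G) (ha : a ∈ A) (ha' : a ∉ B) : Red a
  | cons (a b g : G) (ha : a ∈ A) (ha' : a ∉ B) (hb : b ∈ B) (hb' : b ∉ A) (hg : Red g) :
      Red (a * b * g)

/-- the coset graph -/
def graph : SimpleGraph ((G ⧸ B) ⊕ (G ⧸ A)) where
  Adj x y := (∃ g : G, x = Sum.inl (g : G ⧸ B) ∧ y = Sum.inr (g : G ⧸ A)) ∨
    (∃ g : G, y = Sum.inl (g : G ⧸ B) ∧ x = Sum.inr (g : G ⧸ A))
  symm := ⟨fun _ _ h => h.symm⟩
  loopless := ⟨by
    rintro x (⟨g, h1, h2⟩ | ⟨g, h1, h2⟩) <;> rw [h1] at h2 <;> exact absurd h2 (by simp)⟩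

variable {A B}

theorem adj_inl_inr {x : G ⧸ B} {y : G ⧸ A} :
    (graph A B).Adj (Sum.inl x) (Sum.inr y) ↔ ∃ g : G, x = (g : G ⧸ B) ∧ y = (g : G ⧸ A) := by
  constructor
  · rintro (⟨g, h1, h2⟩ | ⟨g, h1, h2⟩)
    · exact ⟨g, Sum.inl_injective h1, Sum.inr_injective h2⟩
    · exact absurd h1 (by simp)
  · rintro ⟨g, rfl, rfl⟩
    exact Or.inl ⟨g, rfl, rfl⟩

theorem not_adj_inl_inl {x y : G ⧸ B} : ¬ (graph A B).Adj (Sum.inl x) (Sum.inl y) := by
  rintro (⟨g, h1, h2⟩ | ⟨g, h1, h2⟩) <;> exact absurd h2 (by simp)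

theorem not_adj_inr_inr {x y : G ⧸ A} : ¬ (graph A B).Adj (Sum.inr x) (Sum.inr y) := by
  rintro (⟨g, h1, h2⟩ | ⟨g, h1, h2⟩) <;> exact absurd h1 (by simp)

theorem connected (hgen : A ⊔ B = ⊤) : (graph A B).Connected := by
  have key : ∀ g : G, (graph A B).Reachable (Sum.inl ((1 : G) : G ⧸ B)) (Sum.inl (g : G ⧸ B)) := by
    intro g
    have hg : g ∈ Subgroup.closure ((A : Set G) ∪ B) := by
      rw [Subgroup.closure_union, Subgroup.closure_eq, Subgroup.closure_eq, hgen]
      trivial
    have step : ∀ x y : G, y ∈ (A : Set G) ∪ B →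
        (graph A B).Reachable (Sum.inl ((1 : G) : G ⧸ B)) (Sum.inl (x : G ⧸ B)) →
        (graph A B).Reachable (Sum.inl ((1 : G) : G ⧸ B)) (Sum.inl ((x * y : G) : G ⧸ B)) := by
      rintro x y (hy | hy) hx
      · have h1 : (graph A B).Adj (Sum.inl (x : G ⧸ B)) (Sum.inr (x : G ⧸ A)) :=
          adj_inl_inr.2 ⟨x, rfl, rfl⟩
        have h2 : (graph A B).Adj (Sum.inl ((x * y : G) : G ⧸ B)) (Sum.inr (x : G ⧸ A)) := by
          apply adj_inl_inr.2
          refine ⟨x * y, rfl, ?_⟩
          rw [QuotientGroup.eq]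
          simpa using hy
        exact (hx.trans h1.reachable).trans h2.symm.reachable
      · have : ((x * y : G) : G ⧸ B) = (x : G ⧸ B) := by
          rw [QuotientGroup.eq]
          simpa using hy
        rw [this]; exact hx
    refine Subgroup.closure_induction_right (G := G) (s := (A : Set G) ∪ B) (p := fun x _ =>
      (graph A B).Reachable (Sum.inl ((1 : G) : G ⧸ B)) (Sum.inl (QuotientGroup.mk x))) ?_ ?_ ?_ hg
    · exact Reachable.refl _
    · intro x _ y hy hx
      exact step x y hy hx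
    · intro x _ y hy hx
      apply step x y⁻¹ _ hx
      rcases hy with hy | hy
      · exact Or.inl (A.inv_mem hy)
      · exact Or.inr (B.inv_mem hy)
  have key2 : ∀ x : (G ⧸ B) ⊕ (G ⧸ A),
      (graph A B).Reachable (Sum.inl ((1 : G) : G ⧸ B)) x := by
    rintro (x | y)
    · induction x using QuotientGroup.induction_on with
      | H g => exact key g
    · induction y using QuotientGroup.induction_on with
      | H g => exact (key g).trans (adj_inl_inr.2 ⟨g, rfl, rfl⟩).reachable
  have : Nonempty ((G ⧸ B) ⊕ (G ⧸ A)) := ⟨Sum.inl ((1 : G) : G ⧸ B)⟩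
  exact ⟨fun x y => (key2 x).symm.trans (key2 y)⟩

/-- reading a trail of even positive length starting at a `B`-coset -/
theorem trail_red (n : ℕ) : ∀ (g : G) (x : (G ⧸ B) ⊕ (G ⧸ A))
    (p : (graph A B).Walk (Sum.inl (g : G ⧸ B)) x), p.IsTrail → p.length = 2 * (n + 1) →
    ∃ b r : G, b ∈ B ∧ Red A B r ∧ x = Sum.inl ((g * b * r : G) : G ⧸ B) ∧
      p.snd = Sum.inr ((g * b : G) : G ⧸ A) := by
  induction n with
  | zero =>
    intro g x p hp hl
    match x, p, hp, hl with
    | _, Walk.cons (v := v₁) h1 (Walk.cons (v := v₂) h2 (Walk.nil)), hp, _ =>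
      rcases v₁ with v₁ | v₁
      · exact absurd h1 not_adj_inl_inl
      rcases v₂ with v₂ | v₂
      swap
      · exact absurd h2 not_adj_inr_inr
      obtain ⟨u, hu1, hu2⟩ := adj_inl_inr.1 h1
      obtain ⟨w, hw1, hw2⟩ := adj_inl_inr.1 h2.symm
      subst hu2 hw1
      rw [QuotientGroup.eq] at hu1 hw2
      -- hu1 : g⁻¹ * u ∈ B, hw2 : u⁻¹ * w ∈ A
      refine ⟨g⁻¹ * u, u⁻¹ * w, hu1, Red.single _ hw2 ?_, ?_, ?_⟩
      · intro hB
        rw [Walk.isTrail_cons, Walk.isTrail_cons] at hp
        apply hp.2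
        have : ((w : G) : G ⧸ B) = (g : G ⧸ B) := by
          rw [QuotientGroup.eq]
          have := B.inv_mem (B.mul_mem hu1 hB)
          simpa [mul_assoc] using this
        rw [Walk.edges_cons, List.mem_cons]
        left
        rw [this]
        exact Sym2.eq_swap
      · simp
      · simp
  | succ n ih =>
    intro g x p hp hl
    match x, p, hp, hl with
    | x, Walk.cons (v := v₁) h1 (Walk.cons (v := v₂) h2 p'), hp, hl =>
      rcases v₁ with v₁ | v₁
      · exact absurd h1 not_adj_inl_inl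
      rcases v₂ with v₂ | v₂
      swap
      · exact absurd h2 not_adj_inr_inr
      obtain ⟨u, hu1, hu2⟩ := adj_inl_inr.1 h1
      obtain ⟨w, hw1, hw2⟩ := adj_inl_inr.1 h2.symm
      subst hu2 hw1
      rw [QuotientGroup.eq] at hu1 hw2
      rw [Walk.isTrail_cons, Walk.isTrail_cons] at hp
      obtain ⟨⟨hp', hp2⟩, hp1⟩ := hp
      rw [Walk.length_cons, Walk.length_cons] at hl
      obtain ⟨b', r', hb', hr', hx', hsnd'⟩ := ih w x p' hp' (by omega)
      -- b' ∉ A
      have hb'A : b' ∉ A := by
        intro hA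
        apply hp2
        have h3 : ((w * b' : G) : G ⧸ A) = (u : G ⧸ A) := by
          rw [QuotientGroup.eq]
          have := A.inv_mem (A.mul_mem hw2 hA)
          simpa [mul_assoc] using this
        cases p' with
        | nil => simp at hl
        | cons h3' p'' =>
          rw [Walk.snd_cons] at hsnd'
          rw [Walk.edges_cons, List.mem_cons]
          left
          rw [hsnd', h3]
          exact Sym2.eq_swap
      have ha : u⁻¹ * w ∉ B := by
        intro hB
        apply hp1
        have : ((w : G) : G ⧸ B) = (g : G ⧸ B) := by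
          rw [QuotientGroup.eq]
          have := B.inv_mem (B.mul_mem hu1 hB)
          simpa [mul_assoc] using this
        rw [Walk.edges_cons, List.mem_cons]
        left
        rw [this]
        exact Sym2.eq_swap
      refine ⟨g⁻¹ * u, (u⁻¹ * w) * b' * r', hu1, Red.cons _ _ _ hw2 ha hb' hb'A hr', ?_, ?_⟩
      · rw [hx']
        congr 2
        group
      · simp

theorem even_length (x y : G ⧸ B) (p : (graph A B).Walk (Sum.inl x) (Sum.inl y)) :
    Even p.length := by
  suffices h : ∀ (n : ℕ) (x y : G ⧸ B) (p : (graph A B).Walk (Sum.inl x) (Sum.inl y)),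
      p.length = n → Even p.length from h _ x y p rfl
  intro n
  induction n using Nat.strong_induction_on with
  | _ n ih =>
    intro x y p hp
    match y, p, hp with
    | _, Walk.nil, _ => simp
    | y, Walk.cons (v := v₁) h1 p', hp =>
      rcases v₁ with v₁ | v₁
      · exact absurd h1 not_adj_inl_inl
      · match p' with
        | Walk.cons (v := v₂) h2 p'' =>
          rcases v₂ with v₂ | v₂
          · have := ih p''.length (by rw [← hp]; simp) v₂ y p'' rfl
            simp only [Walk.length_cons]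
            rw [Nat.even_add_one, Nat.even_add_one, not_not]
            exact this
          · exact absurd h2 not_adj_inr_inr

theorem isAcyclic (hred : ∀ g : G, Red A B g → g ∉ B) : (graph A B).IsAcyclic := by
  have base : ∀ (g : G) (c : (graph A B).Walk (Sum.inl (g : G ⧸ B)) (Sum.inl (g : G ⧸ B))),
      ¬ c.IsCycle := by
    intro g c hc
    obtain ⟨k, hk⟩ := even_length _ _ c
    have h3 := hc.three_le_length
    obtain ⟨b, r, hb, hr, hx, -⟩ := trail_red (k - 1) g _ c hc.isTrail (by omega)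
    have hx' := Sum.inl_injective hx
    rw [QuotientGroup.eq] at hx'
    apply hred r hr
    have : g⁻¹ * (g * b * r) = b * r := by group
    rw [this] at hx'
    exact (B.mul_mem_cancel_left hb).1 hx'
  rintro (x | y) c hc
  · induction x using QuotientGroup.induction_on with
    | H g => exact base g c hc
  · classical
    -- rotate to the second vertex
    cases c with
    | nil => exact hc.ne_nil rfl
    | cons h p =>
      rename_i v₁
      rcases v₁ with v₁ | v₁
      · induction v₁ using QuotientGroup.induction_on with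
        | H g =>
          have hmem : (Sum.inl (g : G ⧸ B)) ∈ (Walk.cons h p).support := by
            simp
          exact base g _ (hc.rotate hmem)
      · exact absurd h not_adj_inr_inr

/-- **The coset graph of an amalgam is a tree.** -/
theorem isTree (hgen : A ⊔ B = ⊤) (hred : ∀ g : G, Red A B g → g ∉ B) : (graph A B).IsTree :=
  ⟨connected hgen, isAcyclic hred⟩

theorem adj_smul (g : G) (x y : (G ⧸ B) ⊕ (G ⧸ A)) (h : (graph A B).Adj x y) :
    (graph A B).Adj (g • x) (g • y) := by
  rcases h with ⟨u, rfl, rfl⟩ | ⟨u, rfl, rfl⟩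
  · left; exact ⟨g * u, rfl, rfl⟩
  · right; exact ⟨g * u, rfl, rfl⟩

theorem no_inversion (g : G) (x y : (G ⧸ B) ⊕ (G ⧸ A)) (h : (graph A B).Adj x y) :
    ¬ (g • x = y ∧ g • y = x) := by
  rintro ⟨h1, -⟩
  rcases h with ⟨u, rfl, rfl⟩ | ⟨u, rfl, rfl⟩ <;> exact absurd h1 (by simp [Sum.smul_inl, Sum.smul_inr])

end Pool.Agent.Work.MP_29a457_al.CosetTree
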