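import Mathlib

/-!
# Elementary geometry of simplicial trees and of group actions on them
(helper39, for MP_29a457_al; only Mathlib)
-/

namespace Pool.Agent.Work.MP_29a457_al.TreeGeom

open SimpleGraph

variable {V : Type*} {T : SimpleGraph V}

/-- At most one neighbour of `x` is closer to `v`. -/
theorem unique_closer (hT : T.IsTree) {v x p q : V} (hp : T.Adj x p) (hq : T.Adj x q)
    (hpd : T.dist v x = T.dist v p + 1) (hqd : T.dist v x = T.dist v q + 1) : p = q := by
  classical
  obtain ⟨P, hP, hPl⟩ := hT.connected.exists_path_of_dist v p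
  obtain ⟨Q, hQ, hQl⟩ := hT.connected.exists_path_of_dist v q
  have hxP : x ∉ P.support := by
    intro hx
    have := dist_le (P.takeUntil x hx)
    have h2 := P.length_takeUntil_le_length hx
    omega
  have hxQ : x ∉ Q.support := by
    intro hx
    have := dist_le (Q.takeUntil x hx)
    have h2 := Q.length_takeUntil_le_length hx
    omega
  have h1 := hP.concat hxP hp.symm
  have h2 := hQ.concat hxQ hq.symm
  have h3 : P.concat hp.symm = Q.concat hq.symm :=
    congrArg Subtype.val ((hT.isAcyclic.subsingleton_path v x).elim ⟨_, h1⟩ ⟨_, h2⟩)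
  have h4 := congrArg Walk.penultimate h3
  simpa using h4

theorem exists_closer (hT : T.IsTree) {v x : V} (h : v ≠ x) :
    ∃ p, T.Adj x p ∧ T.dist v x = T.dist v p + 1 := by
  obtain ⟨P, hP, hPl⟩ := hT.connected.exists_path_of_dist x v
  cases P with
  | nil => exact absurd rfl h
  | cons hadj P' =>
    rename_i p
    refine ⟨p, hadj, ?_⟩
    rcases hT.dist_eq_dist_add_one_of_adj v hadj with h1 | h1
    · exact h1
    · exfalso
      have := dist_le P'
      rw [Walk.length_cons] at hPl
      rw [dist_comm (u := x)] at hPl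
      rw [dist_comm (u := p)] at this
      omega

/-- If the first steps from `m` towards `u` and towards `v` are different, `m` is between. -/
theorem dist_eq_of_ne_next (hT : T.IsTree) {m v p : V} (hvp : T.Adj m p)
    (hvd : T.dist v m = T.dist v p + 1) :
    ∀ (n : ℕ) (u : V), T.dist m u = n →
      (∀ q, T.Adj m q → T.dist u m = T.dist u q + 1 → q ≠ p) →
      T.dist v u = T.dist v m + n := by
  intro n
  induction n with
  | zero =>
    intro u hu _
    have : m = u := (hT.connected.dist_eq_zero_iff).1 hu
    subst this; simp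
  | succ n ih =>
    intro u hu hq
    have hmu : m ≠ u := by
      rintro rfl; simp at hu
    obtain ⟨w, hw, hwd⟩ := exists_closer hT hmu
    -- w neighbour of u closer to m
    have hmw : T.dist m w = n := by omega
    -- the first step from m towards w is not p
    have hq' : ∀ q, T.Adj m q → T.dist w m = T.dist w q + 1 → q ≠ p := by
      intro q hmq hqd
      apply hq q hmq
      -- dist u m = dist u q + 1
      have h1 : T.dist u m = n + 1 := by rw [dist_comm]; exact hu
      have h2 : T.dist w m = n := by rw [dist_comm]; exact hmw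
      have h3 : T.dist u q ≤ T.dist u w + T.dist w q := hT.connected.dist_triangle
      have h4 : T.dist u w = 1 := dist_eq_one_iff_adj.2 hw
      rcases hT.dist_eq_dist_add_one_of_adj u hmq with h5 | h5
      · exact h5
      · omega
    have ih' := ih w hmw hq'
    rcases Nat.eq_zero_or_pos n with hn | hn
    · -- n = 0: w = m, u neighbour of m, u ≠ p
      subst hn
      have : m = w := (hT.connected.dist_eq_zero_iff).1 hmw
      subst this
      have hup : u ≠ p := by
        apply hq u hw.symm
        rw [dist_self]
        exact dist_eq_one_iff_adj.2 hw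
      rcases hT.dist_eq_dist_add_one_of_adj v hw with h5 | h5
      · rw [h5]
      · exact absurd (unique_closer hT hw.symm hvp h5 hvd) hup
    · -- w ≠ m : the closer neighbour of w to v is on the way to m
      have hwm : m ≠ w := by
        rintro rfl; simp at hmw; omega
      obtain ⟨w', hw', hwd'⟩ := exists_closer hT hwm
      have hmw' : T.dist m w' + 1 = n := by omega
      have hw'u : w' ≠ u := by
        rintro rfl; omega
      -- dist v w' < dist v w
      have h6 : T.dist v w' ≤ T.dist v m + T.dist m w' := hT.connected.dist_triangle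
      rcases hT.dist_eq_dist_add_one_of_adj v hw' with h7 | h7
      · rcases hT.dist_eq_dist_add_one_of_adj v hw with h5 | h5
        · rw [h5, ih']; ring
        · exact absurd (unique_closer hT hw' hw.symm h7 h5) hw'u
      · omega

/-- Separation: if `m` is between `v` and `w`, then from any `u`, one of `v`, `w` is behind `m`. -/
theorem between_sep (hT : T.IsTree) {v m w : V}
    (h : T.dist v w = T.dist v m + T.dist m w) (u : V) :
    T.dist v u = T.dist v m + T.dist m u ∨ T.dist w u = T.dist w m + T.dist m u := by
  by_cases hvm : v = m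
  · subst hvm; left; simp
  by_cases hwm : w = m
  · subst hwm; right; simp
  obtain ⟨p, hp, hpd⟩ := exists_closer hT hvm
  obtain ⟨q, hq, hqd⟩ := exists_closer hT hwm
  have hpq : p ≠ q := by
    rintro rfl
    have h1 : T.dist v w ≤ T.dist v p + T.dist p w := hT.connected.dist_triangle
    rw [dist_comm (u := p)] at h1
    rw [dist_comm (u := m) (v := w)] at h
    omega
  by_cases hc : ∃ r, T.Adj m r ∧ T.dist u m = T.dist u r + 1 ∧ r = p
  · right
    apply dist_eq_of_ne_next hT hq hqd _ u rfl
    rintro r hr hrd rfl
    obtain ⟨r', hr', hrd', rfl⟩ := hc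
    exact hpq (unique_closer hT hr' hr hrd' hrd)
  · left
    apply dist_eq_of_ne_next hT hp hpd _ u rfl
    rintro r hr hrd rfl
    exact hc ⟨r, hr, hrd, rfl⟩

/-- existence of a vertex strictly between two vertices at distance `≥ 2` -/
theorem exists_between (hT : T.IsTree) {v w : V} (h : 2 ≤ T.dist v w) :
    ∃ m, T.dist v w = T.dist v m + T.dist m w ∧ T.dist m w = 1 ∧ 1 ≤ T.dist v m := by
  have hvw : v ≠ w := by rintro rfl; simp at h
  obtain ⟨m, hm, hmd⟩ := exists_closer hT hvw
  have : T.dist m w = 1 := dist_eq_one_iff_adj.2 hm.symm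
  exact ⟨m, by omega, this, by omega⟩

section action

variable {G : Type*} [Group G] [MulAction G V]

theorem dist_smul (hadj : ∀ (g : G) (u v : V), T.Adj u v → T.Adj (g • u) (g • v))
    (g : G) (u v : V) : T.dist (g • u) (g • v) = T.dist u v := by
  have key : ∀ (g : G) (u v : V), T.Reachable u v → T.dist (g • u) (g • v) ≤ T.dist u v := by
    intro g u v hr
    obtain ⟨P, hP⟩ := hr.exists_walk_length_eq_dist
    let f : T →g T := ⟨fun x => g • x, fun {a b} h => hadj g a b h⟩
    have := dist_le (P.map f)
    rw [Walk.length_map, hP] at this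
    exact this
  have hreach : ∀ (g : G) (u v : V), T.Reachable u v → T.Reachable (g • u) (g • v) := by
    intro g u v hr
    let f : T →g T := ⟨fun x => g • x, fun {a b} h => hadj g a b h⟩
    exact hr.map f
  by_cases hr : T.Reachable u v
  · apply le_antisymm (key g u v hr)
    have := key g⁻¹ (g • u) (g • v) (hreach g u v hr)
    simpa using this
  · have hr' : ¬ T.Reachable (g • u) (g • v) := by
      intro h
      apply hr
      have := hreach g⁻¹ _ _ h
      simpa using this
    rw [dist_eq_zero_of_not_reachable hr, dist_eq_zero_of_not_reachable hr']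

/-- **Fixed point of bounded invariant sets.** A group acting without inversions on a tree and
preserving a nonempty bounded set of vertices fixes a vertex. -/
theorem exists_fixed_of_bounded (hT : T.IsTree)
    (hadj : ∀ (g : G) (u v : V), T.Adj u v → T.Adj (g • u) (g • v))
    (hinv : ∀ (g : G) (u v : V), T.Adj u v → ¬ (g • u = v ∧ g • v = u))
    (H : Subgroup G) (S : Set V) (hS : S.Nonempty) (hHS : ∀ g ∈ H, ∀ s ∈ S, g • s ∈ S)
    (D : ℕ) (hD : ∀ s ∈ S, ∀ t ∈ S, T.dist s t ≤ D) :
    ∃ v : V, ∀ g ∈ H, g • v = v := by
  classical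
  have hex : ∃ r : ℕ, ∃ v : V, ∀ s ∈ S, T.dist v s ≤ r := by
    obtain ⟨s₀, hs₀⟩ := hS
    exact ⟨D, s₀, fun s hs => hD s₀ hs₀ s hs⟩
  set r := Nat.find hex with hr
  obtain ⟨c, hc⟩ := Nat.find_spec hex
  have hmin : ∀ v : V, (∀ s ∈ S, T.dist v s + 1 ≤ r) → False := by
    intro v hv
    obtain ⟨s₀, hs₀⟩ := hS
    have hr0 : 1 ≤ r := by have := hv s₀ hs₀; omega
    have : r ≤ r - 1 := Nat.find_min' hex ⟨v, fun s hs => by have := hv s hs; omega⟩
    omega
  -- two centres are at distance at most one
  have hclose : ∀ v w : V, (∀ s ∈ S, T.dist v s ≤ r) → (∀ s ∈ S, T.dist w s ≤ r) →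
      T.dist v w ≤ 1 := by
    intro v w hv hw
    by_contra hlt
    obtain ⟨m, h1, h2, h3⟩ := exists_between hT (show 2 ≤ T.dist v w by omega)
    apply hmin m
    intro s hs
    rcases between_sep hT h1 s with h4 | h4
    · have := hv s hs; omega
    · have := hw s hs
      rw [dist_comm (u := w) (v := m)] at h4
      omega
  have hcent : ∀ g ∈ H, ∀ v : V, (∀ s ∈ S, T.dist v s ≤ r) → ∀ s ∈ S, T.dist (g • v) s ≤ r := by
    intro g hg v hv s hs
    have h1 := hHS g⁻¹ (H.inv_mem hg) s hs
    have h2 := hv _ h1
    rw [← dist_smul hadj g v (g⁻¹ • s)] at h2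
    simpa using h2
  refine ⟨c, ?_⟩
  intro g hg
  by_contra hne
  have hgc := hcent g hg c hc
  have hggc := hcent g hg _ hgc
  have h1 := hclose c (g • c) hc hgc
  have h2 := hclose c (g • g • c) hc hggc
  have hadj1 : T.Adj c (g • c) := by
    rw [← dist_eq_one_iff_adj]
    have : T.dist c (g • c) ≠ 0 := by
      intro h0
      exact hne ((hT.connected.dist_eq_zero_iff).1 h0).symm
    omega
  have hadj2 : T.Adj (g • c) (g • g • c) := hadj g _ _ hadj1
  -- distances from c : to g•c is 1, to g•g•c is 0 or 2
  rcases hT.dist_eq_dist_add_one_of_adj c hadj2 with h3 | h3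
  · have : T.dist c (g • g • c) = 0 := by omega
    have h4 : c = g • g • c := (hT.connected.dist_eq_zero_iff).1 this
    exact hinv g c (g • c) hadj1 ⟨rfl, h4.symm⟩
  · have : T.dist c (g • c) = 1 := dist_eq_one_iff_adj.2 hadj1
    omega

/-- A tree automorphism (no inversion) without fixed vertex moves some vertex linearly. -/
theorem exists_displacement (hT : T.IsTree)
    (hadj : ∀ (g : G) (u v : V), T.Adj u v → T.Adj (g • u) (g • v))
    (hinv : ∀ (g : G) (u v : V), T.Adj u v → ¬ (g • u = v ∧ g • v = u))
    (g : G) (hg : ∀ v : V, g • v ≠ v) :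
    ∃ v : V, ∀ n : ℕ, n ≤ T.dist v (g ^ n • v) := by
  classical
  have hne : Nonempty V := hT.connected.nonempty
  have hex : ∃ r : ℕ, ∃ v : V, T.dist v (g • v) = r := ⟨_, hne.some, rfl⟩
  set τ := Nat.find hex with hτ
  obtain ⟨v, hv⟩ := Nat.find_spec hex
  have hmin : ∀ w : V, τ ≤ T.dist w (g • w) := fun w => Nat.find_min' hex ⟨w, rfl⟩
  rw [← hτ] at hv
  have hτ1 : 1 ≤ τ := by
    by_contra h0
    have : T.dist v (g • v) = 0 := by omega
    exact hg v ((hT.connected.dist_eq_zero_iff).1 this).symm
  -- v, g v, g² v is a geodesic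
  have hgeo : T.dist v (g • g • v) = T.dist v (g • v) + T.dist (g • v) (g • g • v) := by
    have hvg : v ≠ g • v := fun h => hg v h.symm
    obtain ⟨p, hp, hpd⟩ := exists_closer hT hvg
    apply dist_eq_of_ne_next hT hp hpd _ _ rfl
    rintro q hq hqd rfl
    -- q = p neighbour of g•v, towards v and towards g•g•v
    -- v₁ := g⁻¹ • q neighbour of v towards g • v
    set v₁ := g⁻¹ • q with hv₁
    have hgv₁ : g • v₁ = q := by simp [hv₁]
    have hadj1 : T.Adj v v₁ := by
      have := hadj g⁻¹ _ _ hq
      simpa using this
    have hd1 : T.dist (g • v) v = T.dist (g • v) v₁ + 1 := by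
      have h1 := dist_smul hadj g⁻¹ (g • g • v) (g • v)
      have h2 := dist_smul hadj g⁻¹ (g • g • v) q
      simp only [inv_smul_smul] at h1 h2
      rw [h1, h2]; exact hqd
    -- hpd : dist v (g•v) = dist v q + 1
    have hb : T.dist v₁ q + 1 < τ ∨ τ = 1 := by
      by_cases hτ2 : τ = 1
      · right; exact hτ2
      · left
        have hv1g : v₁ ≠ g • v := by
          intro h
          rw [h, dist_self] at hd1
          rw [dist_comm, hv] at hd1
          omega
        obtain ⟨q', hq', hqd'⟩ := exists_closer hT hv1g
        have h3 : T.dist v q' ≤ T.dist v v₁ + T.dist v₁ q' := hT.connected.dist_triangle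
        have h4 : T.dist v v₁ = 1 := dist_eq_one_iff_adj.2 hadj1
        have h5 : T.dist v₁ (g • v) + 1 = τ := by
          rw [dist_comm (u := v₁)]
          rw [dist_comm (u := g • v) (v := v), hv] at hd1
          omega
        have h6 : q' = q := by
          apply unique_closer hT (v := v) hq' hq _ hpd
          rcases hT.dist_eq_dist_add_one_of_adj v hq' with h7 | h7
          · exact h7
          · omega
        rw [h6] at hqd'
        omega
    rcases hb with hb | hb
    · have := hmin v₁
      rw [hgv₁] at this
      omega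
    · -- τ = 1 : inversion
      have h1 : T.dist v q = 0 := by omega
      have h2 : v = q := (hT.connected.dist_eq_zero_iff).1 h1
      have h3 : g • g • v = v := by
        have h5 : T.dist (g • g • v) (g • v) = 1 := by
          rw [dist_smul hadj, dist_comm, hv, hb]
        have h6 : T.dist (g • g • v) q = 0 := by omega
        have h7 := (hT.connected.dist_eq_zero_iff).1 h6
        rw [h7, ← h2]
      have hadj' : T.Adj v (g • v) := dist_eq_one_iff_adj.1 (by rw [hv, hb])
      exact hinv g v (g • v) hadj' ⟨rfl, h3⟩
  refine ⟨v, ?_⟩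
  have hstep : ∀ n : ℕ, T.dist (g ^ n • v) (g ^ (n + 1) • v) = τ := by
    intro n
    rw [pow_succ, mul_smul, dist_smul hadj, hv]
  have hgeo' : ∀ n : ℕ, T.dist (g ^ n • v) (g ^ (n + 2) • v) =
      T.dist (g ^ n • v) (g ^ (n + 1) • v) + T.dist (g ^ (n + 1) • v) (g ^ (n + 2) • v) := by
    intro n
    have e1 : g ^ (n + 1) • v = g ^ n • (g • v) := by rw [pow_succ, mul_smul]
    have e2 : g ^ (n + 2) • v = g ^ n • (g • g • v) := by
      rw [pow_add, mul_smul, pow_two, mul_smul]
    rw [e1, e2, dist_smul hadj, dist_smul hadj, dist_smul hadj]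
    exact hgeo
  have hmain : ∀ n : ℕ, T.dist v (g ^ (n + 1) • v) = T.dist v (g ^ n • v) + τ := by
    intro n
    induction n with
    | zero => simp [hv]
    | succ n ih =>
      have h1 := between_sep hT (hgeo' n) v
      rcases h1 with h1 | h1
      · exfalso
        rw [dist_comm (u := g ^ n • v) (v := v), hstep,
          dist_comm (u := g ^ (n + 1) • v) (v := v)] at h1
        omega
      · rw [dist_comm (u := g ^ (n + 2) • v) (v := v),
          dist_comm (u := g ^ (n + 2) • v) (v := g ^ (n + 1) • v),
          dist_comm (u := g ^ (n + 1) • v) (v := v), hstep] at h1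
        rw [h1]; ring
  intro n
  induction n with
  | zero => simp
  | succ n ih => rw [hmain]; omega

end action

end Pool.Agent.Work.MP_29a457_al.TreeGeom
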