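import Mathlib

/-!
# Definitions for MP_29a457_al: acylindrical actions on trees
-/

namespace Pool.Agent.Work.MP_29a457_al

variable (G : Type*) [Group G] {V : Type*} [MulAction G V]

/-- The graph `T` on the `G`-set `V` is a (simplicial) tree and `G` acts on it by simplicial
automorphisms without inversions. -/
structure IsTreeAction (T : SimpleGraph V) : Prop where
  isTree : T.IsTree
  adj_smul : ∀ (g : G) (u v : V), T.Adj u v → T.Adj (g • u) (g • v)
  no_inversion : ∀ (g : G) (u v : V), T.Adj u v → ¬ (g • u = v ∧ g • v = u)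

/-- `(k, C)`-acylindricity: every edge path (walk without repeated vertices) of length at least
`k` has a pointwise stabiliser with at most `C` elements. -/
def IsAcylindricalWith (T : SimpleGraph V) (k C : ℕ) : Prop :=
  ∀ (u v : V) (p : T.Walk u v), p.IsPath → k ≤ p.length →
    {g : G | ∀ x ∈ p.support, g • x = x}.encard ≤ C

/-- Acylindricity: `(k, C)`-acylindricity for some `k ≥ 0` and some `C > 0`. -/
def IsAcylindrical (T : SimpleGraph V) : Prop :=
  ∃ k C : ℕ, 0 < C ∧ IsAcylindricalWith G T k C

/-- `ℓ` is a bi-infinite geodesic of `T`. -/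
def IsBiinfiniteGeodesic (T : SimpleGraph V) (ℓ : ℤ → V) : Prop :=
  ∀ i j : ℤ, T.dist (ℓ i) (ℓ j) = (i - j).natAbs

/-- The action is non-elementary: no vertex is fixed by all of `G`, and no bi-infinite geodesic
is preserved setwise by `G`. -/
def IsNonElementary (T : SimpleGraph V) : Prop :=
  (¬ ∃ v : V, ∀ g : G, g • v = v) ∧
    ¬ ∃ ℓ : ℤ → V, IsBiinfiniteGeodesic T ℓ ∧
      ∀ g : G, (fun v : V => g • v) '' Set.range ℓ = Set.range ℓ

/-- The stabiliser of the edge with end points `u` and `v` (for an action without inversions it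
fixes both end points). -/
def edgeStabilizer (u v : V) : Subgroup G :=
  MulAction.stabilizer G u ⊓ MulAction.stabilizer G v

end Pool.Agent.Work.MP_29a457_al
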