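import Mathlib

/-!
# Higman's group: finitely presented, nontrivial, no proper finite index subgroup
(helper39, for MP_29a457_al; only Mathlib)
-/

namespace Pool.Agent.Work.MP_29a457_al.Higman

open Monoid

/-! ### A free product inside an amalgam -/

section embed

variable {ι : Type*} {E Z : ι → Type*} {H : Type*} [∀ i, Group (E i)] [∀ i, Group (Z i)] [Group H]

theorem lift_injective (φ : ∀ i, H →* E i) (hφ : ∀ i, Function.Injective (φ i))
    (σ : ∀ i, Z i →* E i) (hσ : ∀ i (n : Z i), n ≠ 1 → σ i n ∉ (φ i).range) :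
    Function.Injective (CoprodI.lift (fun i => (PushoutI.of (φ := φ) i).comp (σ i))) := by
  classical
  rw [injective_iff_map_eq_one]
  intro x hx
  obtain ⟨w, rfl⟩ : ∃ w : CoprodI.Word Z, w.prod = x := ⟨CoprodI.Word.equiv x,
    CoprodI.Word.equiv.symm_apply_apply x⟩
  let f : (Σ i, Z i) → (Σ i, E i) := fun p => ⟨p.1, σ p.1 p.2⟩
  let w' : CoprodI.Word E :=
    { toList := w.toList.map f
      ne_one := by
        intro l hl
        rw [List.mem_map] at hl
        obtain ⟨p, hp, rfl⟩ := hl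
        intro h1
        apply hσ p.1 p.2 (w.ne_one p hp)
        change σ p.1 p.2 = 1 at h1
        rw [h1]
        exact Subgroup.one_mem _
      chain_ne := by
        rw [List.isChain_map]
        exact w.chain_ne }
  have hred : PushoutI.Reduced φ w' := by
    intro g hg
    change g ∈ w.toList.map f at hg
    rw [List.mem_map] at hg
    obtain ⟨p, hp, rfl⟩ := hg
    exact hσ p.1 p.2 (w.ne_one p hp)
  have hprod : CoprodI.lift (fun i => (PushoutI.of (φ := φ) i).comp (σ i)) w.prod =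
      PushoutI.ofCoprodI w'.prod := by
    change CoprodI.lift _ (List.prod (w.toList.map fun l => CoprodI.of l.snd)) =
      PushoutI.ofCoprodI (List.prod ((w.toList.map f).map fun l => CoprodI.of l.snd))
    rw [map_list_prod, map_list_prod, List.map_map, List.map_map, List.map_map]
    congr 1
  have hemp : w' = .empty := by
    apply hred.eq_empty_of_mem_range hφ
    rw [← hprod, hx]
    exact Subgroup.one_mem _
  have : w.toList = [] := by
    have h1 := congrArg CoprodI.Word.toList hemp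
    change w.toList.map f = [] at h1
    simpa using h1
  change List.prod (w.toList.map fun l => CoprodI.of l.snd) = 1
  rw [this]; simp

end embed

/-! ### The group -/

/-- Higman's relators `aᵢ aᵢ₊₁ aᵢ⁻¹ aᵢ₊₁⁻²` -/
def rel (i : Fin 4) : FreeGroup (Fin 4) :=
  FreeGroup.of i * FreeGroup.of (i + 1) * (FreeGroup.of i)⁻¹ * (FreeGroup.of (i + 1) ^ 2)⁻¹

/-- the set of relators -/
def rels : Set (FreeGroup (Fin 4)) := Set.range rel

theorem rels_finite : rels.Finite := Set.finite_range _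

/-- Higman's group -/
abbrev Q := PresentedGroup rels

/-! ### No finite quotients -/

section finite

variable {F : Type*} [Group F]

theorem conj_pow {a b : F} (h : a * b * a⁻¹ = b ^ 2) (n : ℕ) : a ^ n * b * (a ^ n)⁻¹ = b ^ (2 ^ n) := by
  induction n with
  | zero => simp
  | succ n ih =>
    have h2 : ∀ m : ℕ, a * b ^ m * a⁻¹ = (b ^ 2) ^ m := by
      intro m
      rw [← h]
      exact (_root_.conj_pow).symm
    rw [pow_succ', mul_inv_rev]
    calc a * a ^ n * b * ((a ^ n)⁻¹ * a⁻¹) = a * (a ^ n * b * (a ^ n)⁻¹) * a⁻¹ := by group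
      _ = _ := by rw [ih, h2, ← pow_mul, pow_succ']

theorem orderOf_dvd {a b : F} [Finite F] (h : a * b * a⁻¹ = b ^ 2) :
    orderOf b ∣ 2 ^ orderOf a - 1 := by
  have h1 := conj_pow h (orderOf a)
  rw [pow_orderOf_eq_one] at h1
  have h2 : b = b ^ (2 ^ orderOf a) := by simpa using h1
  rw [orderOf_dvd_iff_pow_eq_one]
  have h3 : 1 ≤ 2 ^ orderOf a := Nat.one_le_two_pow
  have h4 : b ^ (2 ^ orderOf a - 1) * b = b := by
    rw [← pow_succ, Nat.sub_add_cancel h3]; exact h2.symm
  simpa using h4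

theorem all_one [Finite F] (u : Fin 4 → F) (h : ∀ i, u i * u (i + 1) * (u i)⁻¹ = u (i + 1) ^ 2) :
    ∀ i, u i = 1 := by
  set N := ∏ i, orderOf (u i) with hN
  have hdvd : ∀ i, orderOf (u i) ∣ N := fun i => Finset.dvd_prod_of_mem _ (Finset.mem_univ i)
  by_cases hN1 : N = 1
  · intro i
    have := hdvd i
    rw [hN1, Nat.dvd_one] at this
    exact orderOf_eq_one_iff.1 this
  exfalso
  set p := N.minFac with hp
  have hpp : p.Prime := Nat.minFac_prime hN1
  have := Fact.mk hpp
  obtain ⟨j, -, hj⟩ := (Prime.dvd_finsetProd_iff hpp.prime _).1 (Nat.minFac_dvd N)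
  -- j = i + 1
  obtain ⟨i, rfl⟩ : ∃ i : Fin 4, j = i + 1 := ⟨j - 1, by simp⟩
  have h1 : p ∣ 2 ^ orderOf (u i) - 1 := hj.trans (orderOf_dvd (h i))
  have h2 : (2 : ZMod p) ^ orderOf (u i) = 1 := by
    have h3 : ((2 ^ orderOf (u i) - 1 : ℕ) : ZMod p) = 0 := (ZMod.natCast_eq_zero_iff _ _).2 h1
    rw [Nat.cast_sub Nat.one_le_two_pow] at h3
    push_cast at h3
    exact sub_eq_zero.1 h3
  have h20 : (2 : ZMod p) ≠ 0 := by
    intro h0
    rw [h0, zero_pow (orderOf_pos _).ne'] at h2
    exact zero_ne_one h2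
  have h4 : orderOf (2 : ZMod p) ∣ p - 1 := ZMod.orderOf_dvd_card_sub_one h20
  have h5 : orderOf (2 : ZMod p) ∣ orderOf (u i) := orderOf_dvd_of_pow_eq_one h2
  have h6 : orderOf (2 : ZMod p) ≠ 1 := by
    rw [Ne, orderOf_eq_one_iff]
    intro h7
    have h8 : (1 : ZMod p) = 0 := by
      have : (2 : ZMod p) - 1 = 0 := by rw [h7]; ring
      have h9 : (2 : ZMod p) - 1 = 1 := by ring
      rw [h9] at this; exact this
    exact one_ne_zero h8
  have h7 : (orderOf (2 : ZMod p)).minFac ∣ N :=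
    ((Nat.minFac_dvd _).trans h5).trans (hdvd i)
  have h8 : N.minFac ≤ (orderOf (2 : ZMod p)).minFac :=
    Nat.minFac_le_of_dvd (Nat.minFac_prime h6).two_le h7
  have h9 : (orderOf (2 : ZMod p)).minFac ≤ orderOf (2 : ZMod p) := by
    apply Nat.minFac_le
    apply Nat.pos_of_dvd_of_pos h5 (orderOf_pos _)
  have h10 : orderOf (2 : ZMod p) ≤ p - 1 := Nat.le_of_dvd (by have := hpp.two_le; omega) h4
  have := hpp.two_le
  omega

end finite

theorem relation (i : Fin 4) :
    (PresentedGroup.of i : Q) * PresentedGroup.of (i + 1) * (PresentedGroup.of i)⁻¹ =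
      PresentedGroup.of (i + 1) ^ 2 := by
  have h : (PresentedGroup.mk rels) (rel i) = 1 :=
    PresentedGroup.one_of_mem ⟨i, rfl⟩
  rw [rel] at h
  simp only [map_mul, map_inv, map_pow] at h
  exact mul_inv_eq_one.1 h

/-- every homomorphism from Higman's group to a finite group is trivial -/
theorem hom_finite {F : Type*} [Group F] [Finite F] (f : Q →* F) : ∀ x, f x = 1 := by
  have h := all_one (fun i => f (PresentedGroup.of i)) (by
    intro i
    rw [← map_mul, ← map_inv, ← map_mul, ← map_pow, relation i])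
  have : f = 1 := by
    apply PresentedGroup.ext
    intro i
    simpa using h i
  intro x; rw [this]; rfl

/-- Higman's group has no proper subgroup of finite index -/
theorem eq_top_of_finiteIndex (K : Subgroup Q) [K.FiniteIndex] : K = ⊤ := by
  have h := hom_finite (QuotientGroup.mk' K.normalCore)
  rw [eq_top_iff]
  intro x _
  apply K.normalCore_le
  have := h x
  rwa [QuotientGroup.mk'_apply, QuotientGroup.eq_one_iff] at this

/-! ### Higman's group is nontrivial -/

/-- `x ↦ 2x` -/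
def α : Equiv.Perm ℚ where
  toFun x := 2 * x
  invFun x := x / 2
  left_inv x := by ring
  right_inv x := by ring

/-- `x ↦ x + 1` -/
def β : Equiv.Perm ℚ := Equiv.addRight 1

theorem αβ : α * β * α⁻¹ = β ^ 2 := by
  ext x
  simp only [Equiv.Perm.mul_apply, pow_two, α, β]
  change 2 * (x / 2 + 1) = x + 1 + 1
  ring

theorem β_zpow (n : ℤ) (x : ℚ) : (β ^ n) x = x + n := by
  have hnat : ∀ (m : ℕ) (x : ℚ), (β ^ m) x = x + m := by
    intro m
    induction m with
    | zero => simp
    | succ m ih =>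
      intro x
      rw [pow_succ, Equiv.Perm.mul_apply, ih]
      change x + 1 + m = x + (m + 1 : ℕ)
      push_cast; ring
  cases n with
  | ofNat m => simpa using hnat m x
  | negSucc m =>
    rw [zpow_negSucc, Equiv.Perm.inv_eq_iff_eq, hnat]
    push_cast; ring

theorem α_zpow (n : ℤ) (x : ℚ) : (α ^ n) x = 2 ^ n * x := by
  have hnat : ∀ (m : ℕ) (x : ℚ), (α ^ m) x = 2 ^ m * x := by
    intro m
    induction m with
    | zero => simp
    | succ m ih =>
      intro x
      rw [pow_succ, Equiv.Perm.mul_apply, ih]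
      change 2 ^ m * (2 * x) = 2 ^ (m + 1) * x
      ring
  cases n with
  | ofNat m => simpa using hnat m x
  | negSucc m =>
    rw [zpow_negSucc, Equiv.Perm.inv_eq_iff_eq, hnat, zpow_negSucc]
    field_simp

theorem inter (m n : ℤ) (h : α ^ m = β ^ n) : m = 0 ∧ n = 0 := by
  have h0 := congrArg (fun f : Equiv.Perm ℚ => f 0) h
  simp only [α_zpow, β_zpow] at h0
  have hn : n = 0 := by
    have : (n : ℚ) = 0 := by simpa using h0.symm
    exact_mod_cast this
  refine ⟨?_, hn⟩
  subst hn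
  have h1 := congrArg (fun f : Equiv.Perm ℚ => f 1) h
  simp only [α_zpow, β_zpow] at h1
  have h2 : (2 : ℚ) ^ m = 2 ^ (0 : ℤ) := by simpa using h1
  exact zpow_right_injective₀ (by norm_num) (by norm_num) h2

/-- multiplicative integers -/
abbrev ZZ := Multiplicative ℤ

/-- the base maps `ℤ → Perm ℚ`: `b` is `β` in the first factor, `α` in the second -/
def φ : (i : Fin 2) → ZZ →* Equiv.Perm ℚ
  | 0 => zpowersHom _ β
  | 1 => zpowersHom _ α

/-- the other generators -/
def σ : (i : Fin 2) → ZZ →* Equiv.Perm ℚ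
  | 0 => zpowersHom _ α
  | 1 => zpowersHom _ β

theorem φ_inj (i : Fin 2) : Function.Injective (φ i) := by
  rw [injective_iff_map_eq_one]
  intro n hn
  match i with
  | 0 =>
    have h : β ^ (Multiplicative.toAdd n) = 1 := hn
    have := (inter 0 (Multiplicative.toAdd n) (by rw [h]; simp)).2
    exact this
  | 1 =>
    have h : α ^ (Multiplicative.toAdd n) = 1 := hn
    have := (inter (Multiplicative.toAdd n) 0 (by rw [h]; simp)).1
    exact this

theorem σ_not_mem (i : Fin 2) (n : ZZ) (hn : n ≠ 1) : σ i n ∉ (φ i).range := by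
  rintro ⟨m, hm⟩
  apply hn
  match i with
  | 0 =>
    have h : β ^ (Multiplicative.toAdd m) = α ^ (Multiplicative.toAdd n) := hm
    exact (inter _ _ h.symm).1
  | 1 =>
    have h : α ^ (Multiplicative.toAdd m) = β ^ (Multiplicative.toAdd n) := hm
    exact (inter _ _ h).2

/-- `⟨a, b, c | ᵃb = b², ᵇc = c²⟩` (a larger group) -/
abbrev K := PushoutI φ

/-- the embedding of the free group on `a, c` -/
def ψ : CoprodI (fun _ : Fin 2 => ZZ) →* K :=
  CoprodI.lift (fun i => (PushoutI.of (φ := φ) i).comp (σ i))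

theorem ψ_inj : Function.Injective ψ := lift_injective φ φ_inj σ σ_not_mem

/-- the swap of the free group on `a, c` -/
def swap : CoprodI (fun _ : Fin 2 => ZZ) →* CoprodI (fun _ : Fin 2 => ZZ) :=
  CoprodI.lift (fun i => CoprodI.of (M := fun _ : Fin 2 => ZZ) (i := 1 - i))

theorem swap_swap (x : CoprodI (fun _ : Fin 2 => ZZ)) : swap (swap x) = x := by
  have : swap.comp swap = MonoidHom.id _ := by
    apply CoprodI.ext_hom
    intro i
    ext
    fin_cases i <;> simp [swap]
  exact DFunLike.congr_fun this x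

theorem swap_inj : Function.Injective swap := Function.LeftInverse.injective swap_swap

/-- base maps of the second amalgam -/
def Φ : (i : Fin 2) → CoprodI (fun _ : Fin 2 => ZZ) →* K
  | 0 => ψ
  | 1 => ψ.comp swap

theorem Φ_one (x : CoprodI (fun _ : Fin 2 => ZZ)) : Φ 1 x = ψ (swap x) := rfl

theorem Φ_inj (i : Fin 2) : Function.Injective (Φ i) := by
  match i with
  | 0 => exact ψ_inj
  | 1 => exact ψ_inj.comp swap_inj

/-- the big amalgam -/
abbrev P := PushoutI Φ

def ka : K := PushoutI.of (φ := φ) 0 α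
def kb : K := PushoutI.of (φ := φ) 0 β
def kc : K := PushoutI.of (φ := φ) 1 β

theorem kb' : kb = PushoutI.of (φ := φ) 1 α := by
  have h1 := PushoutI.of_apply_eq_base φ 0 (Multiplicative.ofAdd (1 : ℤ))
  have h2 := PushoutI.of_apply_eq_base φ 1 (Multiplicative.ofAdd (1 : ℤ))
  have h3 : φ 0 (Multiplicative.ofAdd (1 : ℤ)) = β := by simp [φ]
  have h4 : φ 1 (Multiplicative.ofAdd (1 : ℤ)) = α := by simp [φ]
  rw [h3] at h1
  rw [h4] at h2
  rw [kb, h1, h2]

theorem kab : ka * kb * ka⁻¹ = kb ^ 2 := by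
  rw [ka, kb, ← map_mul, ← map_inv, ← map_mul, αβ, map_pow]

theorem kbc : kb * kc * kb⁻¹ = kc ^ 2 := by
  rw [kb', kc, ← map_mul, ← map_inv, ← map_mul, αβ, map_pow]

/-- the generators in the big amalgam -/
def gens : Fin 4 → P :=
  ![PushoutI.of (φ := Φ) 0 ka, PushoutI.of (φ := Φ) 0 kb, PushoutI.of (φ := Φ) 0 kc,
    PushoutI.of (φ := Φ) 1 kb]

theorem ψ_zero : ψ (CoprodI.of (M := fun _ : Fin 2 => ZZ) (i := 0) (Multiplicative.ofAdd 1)) = ka := by
  simp [ψ, σ, ka]

theorem ψ_one : ψ (CoprodI.of (M := fun _ : Fin 2 => ZZ) (i := 1) (Multiplicative.ofAdd 1)) = kc := by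
  simp [ψ, σ, kc]

theorem c_eq : PushoutI.of (φ := Φ) 0 kc = PushoutI.of (φ := Φ) 1 ka := by
  have h1 := PushoutI.of_apply_eq_base Φ 0
    (CoprodI.of (M := fun _ : Fin 2 => ZZ) (i := 1) (Multiplicative.ofAdd 1))
  have h2 := PushoutI.of_apply_eq_base Φ 1
    (CoprodI.of (M := fun _ : Fin 2 => ZZ) (i := 1) (Multiplicative.ofAdd 1))
  rw [← h2] at h1
  have h3 : Φ 0 (CoprodI.of (M := fun _ : Fin 2 => ZZ) (i := 1) (Multiplicative.ofAdd 1)) = kc :=
    ψ_one
  have h4 : Φ 1 (CoprodI.of (M := fun _ : Fin 2 => ZZ) (i := 1) (Multiplicative.ofAdd 1)) = ka := by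
    rw [Φ_one, ← ψ_zero]
    congr 1
  rw [h3, h4] at h1
  exact h1

theorem a_eq : PushoutI.of (φ := Φ) 0 ka = PushoutI.of (φ := Φ) 1 kc := by
  have h1 := PushoutI.of_apply_eq_base Φ 0
    (CoprodI.of (M := fun _ : Fin 2 => ZZ) (i := 0) (Multiplicative.ofAdd 1))
  have h2 := PushoutI.of_apply_eq_base Φ 1
    (CoprodI.of (M := fun _ : Fin 2 => ZZ) (i := 0) (Multiplicative.ofAdd 1))
  rw [← h2] at h1
  have h3 : Φ 0 (CoprodI.of (M := fun _ : Fin 2 => ZZ) (i := 0) (Multiplicative.ofAdd 1)) = ka :=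
    ψ_zero
  have h4 : Φ 1 (CoprodI.of (M := fun _ : Fin 2 => ZZ) (i := 0) (Multiplicative.ofAdd 1)) = kc := by
    rw [Φ_one, ← ψ_one]
    congr 1
  rw [h3, h4] at h1
  exact h1

theorem gens_rel (i : Fin 4) :
    gens i * gens (i + 1) * (gens i)⁻¹ = gens (i + 1) ^ 2 := by
  fin_cases i
  · change PushoutI.of (φ := Φ) 0 ka * PushoutI.of (φ := Φ) 0 kb * (PushoutI.of (φ := Φ) 0 ka)⁻¹ =
      PushoutI.of (φ := Φ) 0 kb ^ 2
    rw [← map_mul, ← map_inv, ← map_mul, kab, map_pow]
  · change PushoutI.of (φ := Φ) 0 kb * PushoutI.of (φ := Φ) 0 kc * (PushoutI.of (φ := Φ) 0 kb)⁻¹ =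
      PushoutI.of (φ := Φ) 0 kc ^ 2
    rw [← map_mul, ← map_inv, ← map_mul, kbc, map_pow]
  · change PushoutI.of (φ := Φ) 0 kc * PushoutI.of (φ := Φ) 1 kb * (PushoutI.of (φ := Φ) 0 kc)⁻¹ =
      PushoutI.of (φ := Φ) 1 kb ^ 2
    rw [c_eq, ← map_mul, ← map_inv, ← map_mul, kab, map_pow]
  · change PushoutI.of (φ := Φ) 1 kb * PushoutI.of (φ := Φ) 0 ka * (PushoutI.of (φ := Φ) 1 kb)⁻¹ =
      PushoutI.of (φ := Φ) 0 ka ^ 2
    rw [a_eq, ← map_mul, ← map_inv, ← map_mul, kbc, map_pow]

/-- the homomorphism to the big amalgam -/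
def toP : Q →* P := PresentedGroup.toGroup (f := gens) (by
  rintro r ⟨i, rfl⟩
  rw [rel]
  simp only [map_mul, map_inv, map_pow, FreeGroup.lift_apply_of]
  rw [mul_inv_eq_one]
  exact gens_rel i)

theorem of_zero_ne_one : (PresentedGroup.of (0 : Fin 4) : Q) ≠ 1 := by
  intro h
  have h1 : toP (PresentedGroup.of (0 : Fin 4)) = 1 := by rw [h]; simp
  have h2 : PushoutI.of (φ := Φ) 0 ka = 1 := by
    have : toP (PresentedGroup.of (0 : Fin 4)) = gens 0 := PresentedGroup.toGroup.of _
    rw [this] at h1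
    exact h1
  have h3 : ka = 1 := by
    apply PushoutI.of_injective Φ_inj 0
    rw [h2]; simp
  have h4 : α = 1 := by
    apply PushoutI.of_injective φ_inj 0
    have : PushoutI.of (φ := φ) 0 α = 1 := h3
    rw [this]; simp
  have h5 := (inter 1 0 (by rw [h4]; simp)).1
  exact one_ne_zero h5

theorem nontrivial : Nontrivial Q := ⟨⟨_, _, of_zero_ne_one⟩⟩

/-- Higman's group is infinite -/
theorem infinite : Infinite Q := by
  by_contra h
  rw [not_infinite_iff_finite] at h
  exact of_zero_ne_one (hom_finite (MonoidHom.id Q) _)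

end Pool.Agent.Work.MP_29a457_al.Higman
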