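import Mathlib
import Pool.Agent.Work.MP_29a457_al.Higman

/-!
# The group `G` of the counterexample
(helper39, for MP_29a457_al)
-/

namespace Pool.Agent.Work.MP_29a457_al.Grp

open Higman (Q)

/-- generators of `G` -/
inductive Gen
  | l (i : Fin 4) | m (i : Fin 4) | x | y | t | s
  deriving DecidableEq, Fintype

/-- names of the relators of `G` -/
inductive Rel
  | hl (i : Fin 4) | hm (i : Fin 4) | lm (i j : Fin 4) | xlm (i : Fin 4) | yl (i : Fin 4)
  | tm (i : Fin 4) | tx | ty | zm (i : Fin 4) | zx | zy | sz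
  deriving DecidableEq, Fintype

open FreeGroup in
/-- the word `z = [x, y]` -/
def zw : FreeGroup Gen := of .x * of .y * (of .x)⁻¹ * (of .y)⁻¹

/-- commutator word -/
def cw (a b : FreeGroup Gen) : FreeGroup Gen := a * b * a⁻¹ * b⁻¹

open FreeGroup in
/-- the relators -/
def rel : Rel → FreeGroup Gen
  | .hl i => of (.l i) * of (.l (i + 1)) * (of (.l i))⁻¹ * (of (.l (i + 1)) ^ 2)⁻¹
  | .hm i => of (.m i) * of (.m (i + 1)) * (of (.m i))⁻¹ * (of (.m (i + 1)) ^ 2)⁻¹
  | .lm i j => cw (of (.l i)) (of (.m j))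
  | .xlm i => cw (of .x) (of (.l i) * of (.m i))
  | .yl i => cw (of .y) (of (.l i))
  | .tm i => cw (of .t) (of (.m i))
  | .tx => cw (of .t) (of .x)
  | .ty => cw (of .t) (of .y)
  | .zm i => cw zw (of (.m i))
  | .zx => cw zw (of .x)
  | .zy => cw zw (of .y)
  | .sz => cw (of .s) zw

/-- the set of relators -/
def rels : Set (FreeGroup Gen) := Set.range rel

/-- The group. -/
abbrev G := PresentedGroup rels

instance : Finite rels := Set.finite_range rel

theorem finitelyPresented : Group.IsFinitelyPresented G := inferInstance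

/-- homomorphisms out of `G` -/
theorem lift_rel {H : Type*} [Group H] (f : Gen → H)
    (hl : ∀ i, f (.l i) * f (.l (i + 1)) * (f (.l i))⁻¹ = f (.l (i + 1)) ^ 2)
    (hm : ∀ i, f (.m i) * f (.m (i + 1)) * (f (.m i))⁻¹ = f (.m (i + 1)) ^ 2)
    (lm : ∀ i j, Commute (f (.l i)) (f (.m j)))
    (xlm : ∀ i, Commute (f .x) (f (.l i) * f (.m i)))
    (yl : ∀ i, Commute (f .y) (f (.l i)))
    (tm : ∀ i, Commute (f .t) (f (.m i)))
    (tx : Commute (f .t) (f .x)) (ty : Commute (f .t) (f .y))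
    (zm : ∀ i, Commute (f .x * f .y * (f .x)⁻¹ * (f .y)⁻¹) (f (.m i)))
    (zx : Commute (f .x * f .y * (f .x)⁻¹ * (f .y)⁻¹) (f .x))
    (zy : Commute (f .x * f .y * (f .x)⁻¹ * (f .y)⁻¹) (f .y))
    (sz : Commute (f .s) (f .x * f .y * (f .x)⁻¹ * (f .y)⁻¹)) :
    ∀ r ∈ rels, FreeGroup.lift f r = 1 := by
  have key : ∀ a b : H, Commute a b → a * b * a⁻¹ * b⁻¹ = 1 := by
    intro a b h
    rw [h.eq]; group
  rintro r ⟨n, rfl⟩
  cases n with
  | hl i => simp only [rel, map_mul, map_inv, map_pow, FreeGroup.lift_apply_of]; rw [hl]; simp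
  | hm i => simp only [rel, map_mul, map_inv, map_pow, FreeGroup.lift_apply_of]; rw [hm]; simp
  | lm i j => simp only [rel, cw, map_mul, map_inv, FreeGroup.lift_apply_of]; exact key _ _ (lm i j)
  | xlm i => simp only [rel, cw, map_mul, map_inv, FreeGroup.lift_apply_of]; exact key _ _ (xlm i)
  | yl i => simp only [rel, cw, map_mul, map_inv, FreeGroup.lift_apply_of]; exact key _ _ (yl i)
  | tm i => simp only [rel, cw, map_mul, map_inv, FreeGroup.lift_apply_of]; exact key _ _ (tm i)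
  | tx => simp only [rel, cw, map_mul, map_inv, FreeGroup.lift_apply_of]; exact key _ _ tx
  | ty => simp only [rel, cw, map_mul, map_inv, FreeGroup.lift_apply_of]; exact key _ _ ty
  | zm i =>
    simp only [rel, cw, zw, map_mul, map_inv, FreeGroup.lift_apply_of]; exact key _ _ (zm i)
  | zx => simp only [rel, cw, zw, map_mul, map_inv, FreeGroup.lift_apply_of]; exact key _ _ zx
  | zy => simp only [rel, cw, zw, map_mul, map_inv, FreeGroup.lift_apply_of]; exact key _ _ zy
  | sz => simp only [rel, cw, zw, map_mul, map_inv, FreeGroup.lift_apply_of]; exact key _ _ sz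

/-- the generators as elements of `G` -/
def L (i : Fin 4) : G := PresentedGroup.of (.l i)
def M (i : Fin 4) : G := PresentedGroup.of (.m i)
def X : G := PresentedGroup.of .x
def Y : G := PresentedGroup.of .y
def T : G := PresentedGroup.of .t
def S : G := PresentedGroup.of .s
/-- the central-like element -/
def Z : G := X * Y * X⁻¹ * Y⁻¹

theorem of_l (i : Fin 4) : (PresentedGroup.of (.l i) : G) = L i := rfl

theorem rel_eq_one (n : Rel) : PresentedGroup.mk rels (rel n) = 1 :=
  PresentedGroup.one_of_mem ⟨n, rfl⟩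

theorem comm_of {a b : G} (h : a * b * a⁻¹ * b⁻¹ = 1) : Commute a b := by
  have : a * b * a⁻¹ = b := by rwa [mul_inv_eq_one] at h
  rw [Commute, SemiconjBy]
  exact mul_inv_eq_iff_eq_mul.1 this

theorem hL (i : Fin 4) : L i * L (i + 1) * (L i)⁻¹ = L (i + 1) ^ 2 := by
  have h := rel_eq_one (.hl i)
  simp only [rel, map_mul, map_inv, map_pow] at h
  exact mul_inv_eq_one.1 h

theorem hM (i : Fin 4) : M i * M (i + 1) * (M i)⁻¹ = M (i + 1) ^ 2 := by
  have h := rel_eq_one (.hm i)
  simp only [rel, map_mul, map_inv, map_pow] at h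
  exact mul_inv_eq_one.1 h

theorem hLM (i j : Fin 4) : Commute (L i) (M j) := by
  have h := rel_eq_one (.lm i j)
  simp only [rel, cw, map_mul, map_inv] at h
  exact comm_of h

theorem hXLM (i : Fin 4) : Commute X (L i * M i) := by
  have h := rel_eq_one (.xlm i)
  simp only [rel, cw, map_mul, map_inv] at h
  apply comm_of
  simp only [mul_inv_rev] at h ⊢
  exact h

theorem hYL (i : Fin 4) : Commute Y (L i) := by
  have h := rel_eq_one (.yl i)
  simp only [rel, cw, map_mul, map_inv] at h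
  exact comm_of h

theorem hTM (i : Fin 4) : Commute T (M i) := by
  have h := rel_eq_one (.tm i)
  simp only [rel, cw, map_mul, map_inv] at h
  exact comm_of h

theorem hTX : Commute T X := by
  have h := rel_eq_one .tx
  simp only [rel, cw, map_mul, map_inv] at h
  exact comm_of h

theorem hTY : Commute T Y := by
  have h := rel_eq_one .ty
  simp only [rel, cw, map_mul, map_inv] at h
  exact comm_of h

theorem mk_zw : PresentedGroup.mk rels zw = Z := by
  simp only [zw, map_mul, map_inv]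
  rfl

theorem hZM (i : Fin 4) : Commute Z (M i) := by
  have h := rel_eq_one (.zm i)
  simp only [rel, cw, map_mul, map_inv, mk_zw] at h
  exact comm_of h

theorem hZX : Commute Z X := by
  have h := rel_eq_one .zx
  simp only [rel, cw, map_mul, map_inv, mk_zw] at h
  exact comm_of h

theorem hZY : Commute Z Y := by
  have h := rel_eq_one .zy
  simp only [rel, cw, map_mul, map_inv, mk_zw] at h
  exact comm_of h

theorem hSZ : Commute S Z := by
  have h := rel_eq_one .sz
  simp only [rel, cw, map_mul, map_inv, mk_zw] at h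
  exact comm_of h

theorem hTZ : Commute T Z := by
  unfold Z
  exact (((hTX.mul_right hTY).mul_right hTX.inv_right).mul_right hTY.inv_right)

/-- a subgroup containing the generators is everything -/
theorem generated (K : Subgroup G) (hl : ∀ i, L i ∈ K) (hm : ∀ i, M i ∈ K) (hx : X ∈ K)
    (hy : Y ∈ K) (ht : T ∈ K) (hs : S ∈ K) (g : G) : g ∈ K := by
  apply PresentedGroup.generated_by rels K
  intro j
  cases j with
  | l i => exact hl i
  | m i => exact hm i
  | x => exact hx
  | y => exact hy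
  | t => exact ht
  | s => exact hs

/-- first copy of Higman's group -/
def ιL : Q →* G := PresentedGroup.toGroup (f := L) (by
  rintro r ⟨i, rfl⟩
  rw [Higman.rel]
  simp only [map_mul, map_inv, map_pow, FreeGroup.lift_apply_of]
  rw [mul_inv_eq_one]
  exact hL i)

/-- second copy of Higman's group -/
def ιM : Q →* G := PresentedGroup.toGroup (f := M) (by
  rintro r ⟨i, rfl⟩
  rw [Higman.rel]
  simp only [map_mul, map_inv, map_pow, FreeGroup.lift_apply_of]
  rw [mul_inv_eq_one]
  exact hM i)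

theorem ιL_of (i : Fin 4) : ιL (PresentedGroup.of i) = L i := PresentedGroup.toGroup.of _
theorem ιM_of (i : Fin 4) : ιM (PresentedGroup.of i) = M i := PresentedGroup.toGroup.of _

theorem ιL_mem (K : Subgroup G) (h : ∀ i, L i ∈ K) (q : Q) : ιL q ∈ K := by
  have := PresentedGroup.generated_by Higman.rels (K.comap ιL) (by
    intro i
    rw [Subgroup.mem_comap, ιL_of]
    exact h i) q
  exact this

theorem ιM_mem (K : Subgroup G) (h : ∀ i, M i ∈ K) (q : Q) : ιM q ∈ K := by
  have := PresentedGroup.generated_by Higman.rels (K.comap ιM) (by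
    intro i
    rw [Subgroup.mem_comap, ιM_of]
    exact h i) q
  exact this

theorem mem_cent {a g : G} : g ∈ Subgroup.centralizer {a} ↔ Commute g a := by
  rw [Subgroup.mem_centralizer_iff]
  constructor
  · intro h
    exact (h a rfl).symm
  · rintro h b rfl
    exact h.symm

theorem cLM (q r : Q) : Commute (ιL q) (ιM r) := by
  rw [← mem_cent]
  apply ιL_mem
  intro i
  rw [mem_cent]
  symm
  rw [← mem_cent]
  apply ιM_mem
  intro j
  rw [mem_cent]
  exact (hLM i j).symm

theorem cYL (q : Q) : Commute (ιL q) Y := by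
  rw [← mem_cent]
  apply ιL_mem
  intro i
  rw [mem_cent]
  exact (hYL i).symm

theorem cTM (q : Q) : Commute (ιM q) T := by
  rw [← mem_cent]
  apply ιM_mem
  intro i
  rw [mem_cent]
  exact (hTM i).symm

theorem cZM (q : Q) : Commute (ιM q) Z := by
  rw [← mem_cent]
  apply ιM_mem
  intro i
  rw [mem_cent]
  exact (hZM i).symm

/-- the diagonal homomorphism `q ↦ ιL q * ιM q` -/
def δ : Q →* G := (MonoidHom.noncommCoprod ιL ιM cLM).comp ((MonoidHom.id Q).prod (MonoidHom.id Q))

theorem δ_apply (q : Q) : δ q = ιL q * ιM q := rfl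

theorem cXδ (q : Q) : Commute (δ q) X := by
  have := PresentedGroup.generated_by Higman.rels ((Subgroup.centralizer {X}).comap δ) (by
    intro i
    rw [Subgroup.mem_comap, mem_cent, δ_apply, ιL_of, ιM_of]
    exact (hXLM i).symm) q
  rw [Subgroup.mem_comap, mem_cent] at this
  exact this

/-- the conjugates of `Z` -/
def zq (q : Q) : G := ιL q * Z * (ιL q)⁻¹

theorem zq_one : zq 1 = Z := by simp [zq]

theorem zq_eq (q : Q) : zq q = δ q * Z * (δ q)⁻¹ := by
  rw [zq, δ_apply, mul_inv_rev]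
  have h := cZM q
  calc ιL q * Z * (ιL q)⁻¹ = ιL q * (Z * ιM q) * (ιM q)⁻¹ * (ιL q)⁻¹ := by group
    _ = ιL q * (ιM q * Z) * (ιM q)⁻¹ * (ιL q)⁻¹ := by rw [h.eq]
    _ = _ := by group

theorem commute_conj {a g h : G} (h1 : Commute a g) (h2 : Commute a h) :
    Commute a (g * h * g⁻¹) := (h1.mul_right h2).mul_right h1.inv_right

theorem cX_zq (q : Q) : Commute X (zq q) := by
  rw [zq_eq]
  exact commute_conj (cXδ q).symm hZX.symm

theorem cY_zq (q : Q) : Commute Y (zq q) := by
  rw [zq]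
  exact commute_conj (cYL q).symm hZY.symm

theorem cM_zq (r q : Q) : Commute (ιM r) (zq q) := by
  rw [zq]
  exact commute_conj (cLM q r).symm (cZM r)

theorem cT_zq (q : Q) : Commute T (zq q) := by
  -- zq q = [ιL q X ιL q⁻¹, Y] and ιL q X ιL q⁻¹ = ιM q⁻¹ X ιM q
  have h1 : ιL q * X * (ιL q)⁻¹ = (ιM q)⁻¹ * X * ιM q := by
    have h := (cXδ q).eq
    rw [δ_apply] at h
    -- ιL q * ιM q * X = X * (ιL q * ιM q)
    have h2 : ιM q * (ιL q * X) = X * (ιM q * ιL q) := by
      rw [← mul_assoc, ← (cLM q q).eq, h]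
    calc ιL q * X * (ιL q)⁻¹ = (ιM q)⁻¹ * (ιM q * (ιL q * X)) * (ιL q)⁻¹ := by group
      _ = (ιM q)⁻¹ * (X * (ιM q * ιL q)) * (ιL q)⁻¹ := by rw [h2]
      _ = _ := by group
  have h3 : ιL q * Y * (ιL q)⁻¹ = Y := by
    rw [(cYL q).eq]; group
  have h4 : zq q = (ιL q * X * (ιL q)⁻¹) * (ιL q * Y * (ιL q)⁻¹) * (ιL q * X * (ιL q)⁻¹)⁻¹ *
      (ιL q * Y * (ιL q)⁻¹)⁻¹ := by
    rw [zq, Z]; group
  rw [h4, h1, h3]
  have h5 : Commute T ((ιM q)⁻¹ * X * ιM q) :=
    ((cTM q).symm.inv_right.mul_right hTX).mul_right (cTM q).symm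
  exact ((h5.mul_right hTY).mul_right h5.inv_right).mul_right hTY.inv_right

/-- the projection `G → Q` -/
def π : G →* Q := PresentedGroup.toGroup (f := fun g => match g with
    | .l i => PresentedGroup.of i
    | _ => 1) (lift_rel _ (fun i => Higman.relation i) (by simp) (by simp) (by simp) (by simp)
      (by simp) (by simp) (by simp) (by simp) (by simp) (by simp) (by simp))

theorem π_L (i : Fin 4) : π (L i) = PresentedGroup.of i := PresentedGroup.toGroup.of _
theorem π_M (i : Fin 4) : π (M i) = 1 := PresentedGroup.toGroup.of _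
theorem π_X : π X = 1 := PresentedGroup.toGroup.of _
theorem π_Y : π Y = 1 := PresentedGroup.toGroup.of _
theorem π_T : π T = 1 := PresentedGroup.toGroup.of _
theorem π_S : π S = 1 := PresentedGroup.toGroup.of _

theorem π_ιL (q : Q) : π (ιL q) = q := by
  have : π.comp ιL = MonoidHom.id Q := by
    apply PresentedGroup.ext
    intro i
    rw [MonoidHom.comp_apply, ιL_of, π_L]; rfl
  exact DFunLike.congr_fun this q

theorem π_ιM (q : Q) : π (ιM q) = 1 := by
  have : π.comp ιM = 1 := by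
    apply PresentedGroup.ext
    intro i
    rw [MonoidHom.comp_apply, ιM_of, π_M]; rfl
  exact DFunLike.congr_fun this q

/-- the vertex group `B` -/
def B : Subgroup G := Subgroup.closure (Set.range L ∪ Set.range M ∪ {X, Y, T})

theorem L_mem (i : Fin 4) : L i ∈ B := Subgroup.subset_closure (Or.inl (Or.inl ⟨i, rfl⟩))
theorem M_mem (i : Fin 4) : M i ∈ B := Subgroup.subset_closure (Or.inl (Or.inr ⟨i, rfl⟩))
theorem X_mem : X ∈ B := Subgroup.subset_closure (Or.inr (by simp))
theorem Y_mem : Y ∈ B := Subgroup.subset_closure (Or.inr (by simp))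
theorem T_mem : T ∈ B := Subgroup.subset_closure (Or.inr (by simp))
theorem Z_mem : Z ∈ B :=
  B.mul_mem (B.mul_mem (B.mul_mem X_mem Y_mem) (B.inv_mem X_mem)) (B.inv_mem Y_mem)
theorem ιL_mem_B (q : Q) : ιL q ∈ B := ιL_mem _ L_mem q
theorem ιM_mem_B (q : Q) : ιM q ∈ B := ιM_mem _ M_mem q

/-- `B` is the least subgroup containing the generators other than `S` -/
theorem B_le (K : Subgroup G) (hl : ∀ i, L i ∈ K) (hm : ∀ i, M i ∈ K) (hx : X ∈ K)
    (hy : Y ∈ K) (ht : T ∈ K) : B ≤ K := by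
  rw [B, Subgroup.closure_le]
  rintro g ((⟨i, rfl⟩ | ⟨i, rfl⟩) | hg)
  · exact hl i
  · exact hm i
  · simp only [Set.mem_insert_iff, Set.mem_singleton_iff] at hg
    rcases hg with rfl | rfl | rfl
    · exact hx
    · exact hy
    · exact ht

/-- the kernel `N = B ∩ ker π` -/
def N : Subgroup G := B ⊓ π.ker

theorem mem_N {g : G} : g ∈ N ↔ g ∈ B ∧ π g = 1 := Iff.rfl

theorem X_N : X ∈ N := ⟨X_mem, π_X⟩
theorem Y_N : Y ∈ N := ⟨Y_mem, π_Y⟩
theorem T_N : T ∈ N := ⟨T_mem, π_T⟩
theorem M_N (i : Fin 4) : M i ∈ N := ⟨M_mem i, π_M i⟩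
theorem ιM_N (q : Q) : ιM q ∈ N := ⟨ιM_mem_B q, π_ιM q⟩
theorem Z_N : Z ∈ N :=
  N.mul_mem (N.mul_mem (N.mul_mem X_N Y_N) (N.inv_mem X_N)) (N.inv_mem Y_N)

/-- `N` is normalised by `B` -/
theorem N_conj {b n : G} (hb : b ∈ B) (hn : n ∈ N) : b * n * b⁻¹ ∈ N := by
  refine ⟨B.mul_mem (B.mul_mem hb hn.1) (B.inv_mem hb), ?_⟩
  have hn2 : π n = 1 := hn.2
  change π (b * n * b⁻¹) = 1
  rw [map_mul, map_mul, hn2, map_inv]; group

/-- elements commuting with all conjugates `zq` -/
theorem N_comm {n : G} (hn : n ∈ N) (q : Q) : Commute n (zq q) := by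
  have key : ∀ b ∈ B, ∀ r : Q, Commute (b * (ιL (π b))⁻¹) (zq r) := by
    have hconj : ∀ q r : Q, ιL q * zq r * (ιL q)⁻¹ = zq (q * r) := by
      intro q r
      rw [zq, zq, map_mul]; group
    have hconj2 : ∀ (c : G) (q : Q), (∀ r, Commute c (zq r)) →
        ∀ r, Commute (ιL q * c * (ιL q)⁻¹) (zq r) := by
      intro c q hc r
      have h1 := hc (q⁻¹ * r)
      have h2 : zq r = ιL q * zq (q⁻¹ * r) * (ιL q)⁻¹ := by rw [hconj]; simp
      rw [h2]
      rw [Commute, SemiconjBy]
      calc ιL q * c * (ιL q)⁻¹ * (ιL q * zq (q⁻¹ * r) * (ιL q)⁻¹)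
          = ιL q * (c * zq (q⁻¹ * r)) * (ιL q)⁻¹ := by group
        _ = ιL q * (zq (q⁻¹ * r) * c) * (ιL q)⁻¹ := by rw [h1.eq]
        _ = _ := by group
    intro b hb
    refine Subgroup.closure_induction (p := fun b _ => ∀ r : Q, Commute (b * (ιL (π b))⁻¹) (zq r))
      ?_ ?_ ?_ ?_ hb
    · rintro g ((⟨i, rfl⟩ | ⟨i, rfl⟩) | hg) r
      · rw [π_L, ιL_of, mul_inv_cancel]; exact Commute.one_left _
      · rw [π_M, map_one, inv_one, mul_one, ← ιM_of]; exact cM_zq _ _
      · simp only [Set.mem_insert_iff, Set.mem_singleton_iff] at hg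
        rcases hg with rfl | rfl | rfl
        · rw [π_X, map_one, inv_one, mul_one]; exact cX_zq r
        · rw [π_Y, map_one, inv_one, mul_one]; exact cY_zq r
        · rw [π_T, map_one, inv_one, mul_one]; exact cT_zq r
    · intro r; simp
    · intro a b _ _ ha hb r
      have h1 := hconj2 _ (π a) hb r
      have h2 : a * b * (ιL (π (a * b)))⁻¹ =
          (a * (ιL (π a))⁻¹) * (ιL (π a) * (b * (ιL (π b))⁻¹) * (ιL (π a))⁻¹) := by
        rw [map_mul, map_mul]; group
      rw [h2]
      exact (ha r).mul_left h1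
    · intro a _ ha r
      have h1 := hconj2 _ (π a)⁻¹ ha r
      have h2 : a⁻¹ * (ιL (π a⁻¹))⁻¹ =
          (ιL (π a)⁻¹ * (a * (ιL (π a))⁻¹) * (ιL (π a)⁻¹)⁻¹)⁻¹ := by
        rw [map_inv, map_inv]; group
      rw [h2]
      exact h1.inv_left
  have := key n hn.1 q
  rw [show π n = 1 from hn.2, map_one, inv_one, mul_one] at this
  exact this

theorem N_comm_Z {n : G} (hn : n ∈ N) : Commute n Z := by
  rw [← zq_one]; exact N_comm hn 1

/-- every element of `B` conjugates `Z` to `zq` of its projection -/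
theorem conj_Z {b : G} (hb : b ∈ B) : b * Z * b⁻¹ = zq (π b) := by
  have h1 : b * (ιL (π b))⁻¹ ∈ N := by
    refine ⟨B.mul_mem hb (B.inv_mem (ιL_mem_B _)), ?_⟩
    change π (b * (ιL (π b))⁻¹) = 1
    rw [map_mul, map_inv, π_ιL, mul_inv_cancel]
  have h2 := N_comm h1 (π b)
  calc b * Z * b⁻¹ = (b * (ιL (π b))⁻¹) * zq (π b) * (b * (ιL (π b))⁻¹)⁻¹ := by
        rw [zq]; group
    _ = zq (π b) := by rw [h2.eq]; group

end Pool.Agent.Work.MP_29a457_al.Grp
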