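import Mathlib
import Pool.Agent.Work.MP_29a457_al.Grp

/-!
# A representation showing that the conjugates of `Z` generate independent infinite cyclic groups
(helper39, for MP_29a457_al)
-/

namespace Pool.Agent.Work.MP_29a457_al.Rep

open Higman (Q)
open Grp

/-- translation of functions on `Q` -/
def act : Q →* Equiv.Perm (Q → ℤ) where
  toFun q := { toFun := fun f p => f (q⁻¹ * p)
               invFun := fun f p => f (q * p)
               left_inv := fun f => by ext p; simp
               right_inv := fun f => by ext p; simp }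
  map_one' := by ext f p; simp
  map_mul' q r := by ext f p; simp [mul_assoc]

theorem act_apply (q : Q) (f : Q → ℤ) (p : Q) : act q f p = f (q⁻¹ * p) := rfl

theorem act_add (q : Q) (f g : Q → ℤ) : act q (f + g) = act q f + act q g := rfl

/-- the space -/
abbrev W := (Q → ℤ) × (Q → ℤ) × (Q → ℤ)

/-- first coordinate action -/
def lam : Q →* Equiv.Perm W where
  toFun q := { toFun := fun p => (act q p.1, p.2.1, p.2.2)
               invFun := fun p => ((act q)⁻¹ p.1, p.2.1, p.2.2)
               left_inv := fun p => by simp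
               right_inv := fun p => by simp }
  map_one' := by ext1 p; simp
  map_mul' q r := by ext1 p; simp

/-- second coordinate action -/
def mu : Q →* Equiv.Perm W where
  toFun q := { toFun := fun p => (p.1, act q p.2.1, p.2.2)
               invFun := fun p => (p.1, (act q)⁻¹ p.2.1, p.2.2)
               left_inv := fun p => by simp
               right_inv := fun p => by simp }
  map_one' := by ext1 p; simp
  map_mul' q r := by ext1 p; simp

theorem lam_apply (q : Q) (p : W) : lam q p = (act q p.1, p.2.1, p.2.2) := rfl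
theorem mu_apply (q : Q) (p : W) : mu q p = (p.1, act q p.2.1, p.2.2) := rfl

/-- the unipotent `x` -/
def ux : Equiv.Perm W where
  toFun p := (p.1 + p.2.1, p.2.1, p.2.2)
  invFun p := (p.1 - p.2.1, p.2.1, p.2.2)
  left_inv p := by simp
  right_inv p := by simp

/-- the unipotent `y` -/
def uy : Equiv.Perm W where
  toFun p := (p.1, p.2.1 + p.2.2, p.2.2)
  invFun p := (p.1, p.2.1 - p.2.2, p.2.2)
  left_inv p := by simp
  right_inv p := by simp

/-- the unipotent `z` -/
def uz : Equiv.Perm W where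
  toFun p := (p.1 + p.2.2, p.2.1, p.2.2)
  invFun p := (p.1 - p.2.2, p.2.1, p.2.2)
  left_inv p := by simp
  right_inv p := by simp

theorem ux_apply (p : W) : ux p = (p.1 + p.2.1, p.2.1, p.2.2) := rfl
theorem uy_apply (p : W) : uy p = (p.1, p.2.1 + p.2.2, p.2.2) := rfl
theorem uz_apply (p : W) : uz p = (p.1 + p.2.2, p.2.1, p.2.2) := rfl
theorem ux_inv_apply (p : W) : ux⁻¹ p = (p.1 - p.2.1, p.2.1, p.2.2) := rfl
theorem uy_inv_apply (p : W) : uy⁻¹ p = (p.1, p.2.1 - p.2.2, p.2.2) := rfl

theorem comm_xy : ux * uy * ux⁻¹ * uy⁻¹ = uz := by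
  ext1 p
  simp only [Equiv.Perm.mul_apply, ux_apply, uy_apply, uz_apply, ux_inv_apply, uy_inv_apply]
  refine Prod.ext ?_ (Prod.ext ?_ ?_)
  · simp only []; ring
  · simp only []; ring
  · rfl

/-- images of the generators -/
def gens : Gen → Equiv.Perm W
  | .l i => lam (PresentedGroup.of i)
  | .m i => mu (PresentedGroup.of i)
  | .x => ux
  | .y => uy
  | .t => 1
  | .s => 1

theorem comm_lam_mu (q r : Q) : Commute (lam q) (mu r) := by
  rw [Commute, SemiconjBy]; ext1 p; rfl

theorem comm_x_lam_mu (q : Q) : Commute ux (lam q * mu q) := by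
  rw [Commute, SemiconjBy]
  ext1 p
  simp only [Equiv.Perm.mul_apply, ux_apply, lam_apply, mu_apply, act_add]

theorem comm_y_lam (q : Q) : Commute uy (lam q) := by
  rw [Commute, SemiconjBy]; ext1 p; rfl

theorem comm_z_mu (q : Q) : Commute uz (mu q) := by
  rw [Commute, SemiconjBy]; ext1 p; rfl

theorem comm_z_x : Commute uz ux := by
  rw [Commute, SemiconjBy]
  ext1 p
  simp only [Equiv.Perm.mul_apply, ux_apply, uz_apply]
  refine Prod.ext ?_ (Prod.ext rfl rfl)
  simp only []; ring

theorem comm_z_y : Commute uz uy := by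
  rw [Commute, SemiconjBy]
  ext1 p
  simp only [Equiv.Perm.mul_apply, uy_apply, uz_apply]

/-- the representation -/
def ρ : G →* Equiv.Perm W :=
  PresentedGroup.toGroup (f := gens) (lift_rel gens
    (fun i => by
      simp only [gens]
      rw [← map_mul, ← map_inv, ← map_mul, ← map_pow, Higman.relation])
    (fun i => by
      simp only [gens]
      rw [← map_mul, ← map_inv, ← map_mul, ← map_pow, Higman.relation])
    (fun i j => comm_lam_mu _ _)
    (fun i => comm_x_lam_mu _)
    (fun i => comm_y_lam _)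
    (fun i => Commute.one_left _)
    (Commute.one_left _) (Commute.one_left _)
    (fun i => by simp only [gens]; rw [comm_xy]; exact comm_z_mu _)
    (by simp only [gens]; rw [comm_xy]; exact comm_z_x)
    (by simp only [gens]; rw [comm_xy]; exact comm_z_y)
    (Commute.one_left _))

theorem ρ_L (i : Fin 4) : ρ (L i) = lam (PresentedGroup.of i) := PresentedGroup.toGroup.of _
theorem ρ_X : ρ X = ux := PresentedGroup.toGroup.of _
theorem ρ_Y : ρ Y = uy := PresentedGroup.toGroup.of _

theorem ρ_ιL (q : Q) : ρ (ιL q) = lam q := by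
  have : ρ.comp ιL = lam := by
    apply PresentedGroup.ext
    intro i
    rw [MonoidHom.comp_apply, ιL_of, ρ_L]
  exact DFunLike.congr_fun this q

theorem ρ_Z : ρ Z = uz := by
  rw [Z, map_mul, map_mul, map_mul, map_inv, map_inv, ρ_X, ρ_Y, comm_xy]

/-- translation by a multiple of `q h` -/
theorem uz_zpow (i : ℤ) (p : W) : (uz ^ i) p = (p.1 + i • p.2.2, p.2.1, p.2.2) := by
  have hnat : ∀ (n : ℕ) (p : W), (uz ^ n) p = (p.1 + (n : ℤ) • p.2.2, p.2.1, p.2.2) := by
    intro n
    induction n with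
    | zero => intro p; simp
    | succ n ih =>
      intro p
      rw [pow_succ, Equiv.Perm.mul_apply, uz_apply, ih]
      refine Prod.ext ?_ (Prod.ext rfl rfl)
      simp only [Nat.cast_succ, add_smul, one_smul]
      rw [add_assoc, add_comm p.2.2]
  obtain ⟨n, rfl | rfl⟩ := i.eq_nat_or_neg
  · rw [zpow_natCast, hnat]
  · rw [zpow_neg, zpow_natCast, Equiv.Perm.inv_eq_iff_eq, hnat]
    refine Prod.ext ?_ (Prod.ext rfl rfl)
    simp

theorem ρ_Z_zpow (i : ℤ) (p : W) : ρ (Z ^ i) p = (p.1 + i • p.2.2, p.2.1, p.2.2) := by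
  rw [map_zpow, ρ_Z, uz_zpow]

theorem ρ_zq_zpow (q : Q) (j : ℤ) (p : W) :
    ρ (zq q ^ j) p = (p.1 + j • act q p.2.2, p.2.1, p.2.2) := by
  have h1 : zq q ^ j = ιL q * Z ^ j * (ιL q)⁻¹ := by
    rw [zq, conj_zpow]
  have h2 : (lam q)⁻¹ p = ((act q)⁻¹ p.1, p.2.1, p.2.2) := rfl
  rw [h1, map_mul, map_mul, map_inv, ρ_ιL, Equiv.Perm.mul_apply, Equiv.Perm.mul_apply, h2,
    ρ_Z_zpow, lam_apply]
  refine Prod.ext ?_ (Prod.ext rfl rfl)
  have h3 : act q ((act q)⁻¹ p.1) = p.1 := Equiv.apply_symm_apply (act q) p.1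
  simp only [act_add, h3]
  rfl

open Classical in
/-- the delta function at the identity -/
noncomputable def dl : Q → ℤ := fun p => if p = 1 then 1 else 0

theorem dl_one : dl 1 = 1 := by simp [dl]
theorem dl_ne {p : Q} (h : p ≠ 1) : dl p = 0 := by simp [dl, h]

/-- **Independence.** -/
theorem indep {q : Q} (hq : q ≠ 1) {i j : ℤ} (h : zq q ^ j = Z ^ i) : i = 0 ∧ j = 0 := by
  have h1 := congrArg (fun g => (ρ g (0, 0, dl)).1) h
  simp only [ρ_zq_zpow, ρ_Z_zpow, zero_add] at h1
  constructor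
  · have h2 := congrFun h1 1
    simp only [Pi.smul_apply, smul_eq_mul, act_apply, mul_one, dl_one] at h2
    rw [dl_ne (by simpa using hq), mul_zero] at h2
    exact h2.symm
  · have h2 := congrFun h1 q
    simp only [Pi.smul_apply, smul_eq_mul, act_apply, inv_mul_cancel, dl_one, mul_one] at h2
    rw [dl_ne hq, mul_zero] at h2
    exact h2

theorem Z_zpow_eq_one {i : ℤ} (h : Z ^ i = 1) : i = 0 := by
  have h1 := congrArg (fun g => (ρ g (0, 0, dl)).1) h
  simp only [ρ_Z_zpow, zero_add, map_one, Equiv.Perm.one_apply] at h1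
  have h2 := congrFun h1 1
  simpa [dl_one] using h2

theorem Z_zpow_inj {i j : ℤ} (h : Z ^ i = Z ^ j) : i = j := by
  have : Z ^ (i - j) = 1 := by rw [zpow_sub, h, mul_inv_cancel]
  have := Z_zpow_eq_one this
  omega

theorem zq_zpow_eq_one {q : Q} {i : ℤ} (h : zq q ^ i = 1) : i = 0 := by
  have h1 : zq q ^ i = ιL q * Z ^ i * (ιL q)⁻¹ := by
    rw [zq, conj_zpow]
  rw [h1] at h
  apply Z_zpow_eq_one
  have h2 : Z ^ i = (ιL q)⁻¹ * (ιL q * Z ^ i * (ιL q)⁻¹) * ιL q := by group
  rw [h2, h]; group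

/-- two different conjugates are independent -/
theorem indep' {q r : Q} (hq : q ≠ r) {i j : ℤ} (h : zq q ^ j = zq r ^ i) : i = 0 ∧ j = 0 := by
  have hq' : r⁻¹ * q ≠ 1 := by
    intro h'
    exact hq (by rw [inv_mul_eq_one] at h'; exact h'.symm)
  apply indep hq'
  have h1 : zq (r⁻¹ * q) = (ιL r)⁻¹ * zq q * ιL r := by
    rw [zq, zq, map_mul, map_inv]; group
  have h2 : Z = (ιL r)⁻¹ * zq r * ιL r := by
    rw [zq]; group
  have h3 : ∀ (a g : G) (n : ℤ), (a⁻¹ * g * a) ^ n = a⁻¹ * g ^ n * a := by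
    intro a g n
    have := conj_zpow (i := n) (a := a⁻¹) (b := g)
    rwa [inv_inv] at this
  rw [h1, h2, h3, h3, h]

end Pool.Agent.Work.MP_29a457_al.Rep
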