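import Mathlib
import Pool.Agent.Work.MP_29a457_al.Grp

/-!
# Finitely generated subgroups of `G` containing `N` contain `B`
(helper39, for MP_29a457_al)
-/

namespace Pool.Agent.Work.MP_29a457_al.Star

open Higman (Q)
open Grp

open Classical in
/-- the weight of the coset `N` -/
noncomputable def w (ξ : G ⧸ N) : ℤ := if ξ = ((1 : G) : G ⧸ N) then 1 else 0

/-- the permutation attached to `g` and the function `d` -/
noncomputable def perm (g : G) (d : G ⧸ N → ℤ) : Equiv.Perm ((G ⧸ N) × ℤ) where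
  toFun p := (g • p.1, p.2 + d p.1)
  invFun p := (g⁻¹ • p.1, p.2 - d (g⁻¹ • p.1))
  left_inv p := by
    ext <;> simp
  right_inv p := by
    ext <;> simp

theorem perm_apply (g : G) (d : G ⧸ N → ℤ) (p : (G ⧸ N) × ℤ) :
    perm g d p = (g • p.1, p.2 + d p.1) := rfl

theorem perm_mul (g h : G) (d e : G ⧸ N → ℤ) :
    perm g d * perm h e = perm (g * h) (fun ξ => e ξ + d (h • ξ)) := by
  ext1 p
  rw [Equiv.Perm.mul_apply, perm_apply, perm_apply, perm_apply]
  simp only [mul_smul, add_assoc]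

theorem perm_one : perm 1 (fun _ => 0) = 1 := by
  ext1 p
  rw [perm_apply]
  simp

theorem perm_inv (g : G) (d : G ⧸ N → ℤ) :
    (perm g d)⁻¹ = perm g⁻¹ (fun ξ => - d (g⁻¹ • ξ)) := by
  rw [inv_eq_iff_mul_eq_one, perm_mul, ← perm_one]
  congr 1
  · simp
  · ext ξ; simp

theorem fix_coset {n : G} (hn : n ∈ N) : n • ((1 : G) : G ⧸ N) = ((1 : G) : G ⧸ N) := by
  rw [MulAction.Quotient.smul_coe, smul_eq_mul, mul_one]
  rw [QuotientGroup.eq]
  simpa using hn

theorem w_fix {n : G} (hn : n ∈ N) (ξ : G ⧸ N) : w (n • ξ) = w ξ := by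
  unfold w
  congr 1
  apply propext
  constructor
  · intro h
    rw [← inv_smul_smul n ξ, h]
    exact fix_coset (N.inv_mem hn)
  · rintro rfl
    exact fix_coset hn

/-- the function attached to the generators -/
noncomputable def gens : Gen → Equiv.Perm ((G ⧸ N) × ℤ)
  | .l i => perm (L i) (fun _ => 0)
  | .m i => perm (M i) (fun _ => 0)
  | .x => perm X (fun _ => 0)
  | .y => perm Y (fun _ => 0)
  | .t => perm T w
  | .s => perm S (fun _ => 0)

theorem perm_zero_mul (g h : G) :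
    perm g (fun _ => 0) * perm h (fun _ => 0) = perm (g * h) (fun _ => 0) := by
  rw [perm_mul]; simp

theorem perm_zero_inv (g : G) : (perm g (fun _ => 0))⁻¹ = perm g⁻¹ (fun _ => 0) := by
  rw [perm_inv]; simp

theorem perm_zero_pow (g : G) (n : ℕ) :
    (perm g (fun _ => 0)) ^ n = perm (g ^ n) (fun _ => 0) := by
  induction n with
  | zero => simp [perm_one]
  | succ n ih => rw [pow_succ, ih, perm_zero_mul, pow_succ]

theorem comm_zero {g h : G} (hc : Commute g h) :
    Commute (perm g (fun _ => 0)) (perm h (fun _ => 0)) := by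
  rw [Commute, SemiconjBy, perm_zero_mul, perm_zero_mul, hc.eq]

theorem comm_T {n : G} (hn : n ∈ N) (hc : Commute T n) :
    Commute (perm T w) (perm n (fun _ => 0)) := by
  rw [Commute, SemiconjBy, perm_mul, perm_mul, hc.eq]
  congr 1
  ext ξ
  simp [w_fix hn]

/-- the permutation representation -/
noncomputable def Θ : G →* Equiv.Perm ((G ⧸ N) × ℤ) :=
  PresentedGroup.toGroup (f := gens) (lift_rel gens
    (fun i => by
      simp only [gens]
      rw [perm_zero_mul, perm_zero_inv, perm_zero_mul, perm_zero_pow, hL])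
    (fun i => by
      simp only [gens]
      rw [perm_zero_mul, perm_zero_inv, perm_zero_mul, perm_zero_pow, hM])
    (fun i j => comm_zero (hLM i j))
    (fun i => by
      simp only [gens]
      rw [perm_zero_mul]; exact comm_zero (hXLM i))
    (fun i => comm_zero (hYL i))
    (fun i => comm_T (M_N i) (hTM i))
    (comm_T X_N hTX) (comm_T Y_N hTY)
    (fun i => by
      simp only [gens]
      rw [perm_zero_mul, perm_zero_inv, perm_zero_inv, perm_zero_mul, perm_zero_mul]
      exact comm_zero (hZM i))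
    (by
      simp only [gens]
      rw [perm_zero_mul, perm_zero_inv, perm_zero_inv, perm_zero_mul, perm_zero_mul]
      exact comm_zero hZX)
    (by
      simp only [gens]
      rw [perm_zero_mul, perm_zero_inv, perm_zero_inv, perm_zero_mul, perm_zero_mul]
      exact comm_zero hZY)
    (by
      simp only [gens]
      rw [perm_zero_mul, perm_zero_inv, perm_zero_inv, perm_zero_mul, perm_zero_mul]
      exact comm_zero hSZ))

theorem Θ_L (i : Fin 4) : Θ (L i) = perm (L i) (fun _ => 0) := PresentedGroup.toGroup.of _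
theorem Θ_M (i : Fin 4) : Θ (M i) = perm (M i) (fun _ => 0) := PresentedGroup.toGroup.of _
theorem Θ_X : Θ X = perm X (fun _ => 0) := PresentedGroup.toGroup.of _
theorem Θ_Y : Θ Y = perm Y (fun _ => 0) := PresentedGroup.toGroup.of _
theorem Θ_T : Θ T = perm T w := PresentedGroup.toGroup.of _
theorem Θ_S : Θ S = perm S (fun _ => 0) := PresentedGroup.toGroup.of _

/-- the crossed homomorphism -/
noncomputable def D (g : G) (ξ : G ⧸ N) : ℤ := (Θ g (ξ, 0)).2

theorem D_of {g : G} {d : G ⧸ N → ℤ} (h : Θ g = perm g d) : D g = d := by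
  ext ξ
  rw [D, h, perm_apply]; simp

theorem w_supp : (Function.support w).Finite := by
  apply (Set.finite_singleton ((1 : G) : G ⧸ N)).subset
  intro ξ hξ
  rw [Function.mem_support, w] at hξ
  rw [Set.mem_singleton_iff]
  by_contra h
  exact hξ (if_neg h)

theorem main (g : G) : Θ g = perm g (D g) ∧ (Function.support (D g)).Finite := by
  have key : ∀ (g : G) (d : G ⧸ N → ℤ), Θ g = perm g d → d = D g := fun g d h => (D_of h).symm
  let K : Subgroup G :=
    { carrier := {g | ∃ d : G ⧸ N → ℤ, Θ g = perm g d ∧ (Function.support d).Finite}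
      mul_mem' := by
        rintro a b ⟨d, hd, hd'⟩ ⟨e, he, he'⟩
        refine ⟨_, by rw [map_mul, hd, he, perm_mul], ?_⟩
        have h1 : (Function.support fun ξ => e ξ + d (b • ξ)) ⊆
            Function.support e ∪ (fun ξ => b • ξ) ⁻¹' Function.support d := by
          intro ξ hξ
          rw [Function.mem_support] at hξ
          by_contra h
          rw [Set.mem_union, not_or, Function.mem_support, not_not, Set.mem_preimage,
            Function.mem_support, not_not] at h
          exact hξ (by rw [h.1, h.2, add_zero])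
        exact (he'.union (hd'.preimage (MulAction.injective b).injOn)).subset h1
      one_mem' := ⟨fun _ => 0, by rw [map_one, perm_one], by simp⟩
      inv_mem' := by
        rintro a ⟨d, hd, hd'⟩
        refine ⟨_, by rw [map_inv, hd, perm_inv], ?_⟩
        have h1 : (Function.support fun ξ => - d (a⁻¹ • ξ)) ⊆
            (fun ξ => a⁻¹ • ξ) ⁻¹' Function.support d := by
          intro ξ hξ
          rw [Function.mem_support] at hξ
          intro h
          exact hξ (by simp [h])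
        exact ((hd'.preimage (MulAction.injective a⁻¹).injOn)).subset h1 }
  have h0 : (Function.support (fun _ : G ⧸ N => (0 : ℤ))).Finite := by simp
  obtain ⟨d, hd, hd'⟩ := generated K (fun i => ⟨_, Θ_L i, h0⟩) (fun i => ⟨_, Θ_M i, h0⟩)
    ⟨_, Θ_X, h0⟩ ⟨_, Θ_Y, h0⟩ ⟨_, Θ_T, w_supp⟩ ⟨_, Θ_S, h0⟩ g
  rw [← key g d hd]
  exact ⟨hd, hd'⟩

theorem D_mul (g h : G) (ξ : G ⧸ N) : D (g * h) ξ = D h ξ + D g (h • ξ) := by
  have h1 : Θ (g * h) = perm (g * h) (fun ξ => D h ξ + D g (h • ξ)) := by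
    rw [map_mul, (main g).1, (main h).1, perm_mul]
  rw [D_of h1]

theorem D_one (ξ : G ⧸ N) : D 1 ξ = 0 := by
  rw [D, map_one]; rfl

theorem D_inv (g : G) (ξ : G ⧸ N) : D g⁻¹ ξ = - D g (g⁻¹ • ξ) := by
  have h := D_mul g g⁻¹ ξ
  rw [mul_inv_cancel, D_one] at h
  linarith

theorem D_ιL (q : Q) (ξ : G ⧸ N) : D (ιL q) ξ = 0 := by
  let K : Subgroup G :=
    { carrier := {g | ∀ ξ, D g ξ = 0}
      mul_mem' := by
        intro a b ha hb ξ
        rw [D_mul, hb, ha, add_zero]
      one_mem' := D_one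
      inv_mem' := by
        intro a ha ξ
        rw [D_inv, ha, neg_zero] }
  exact ιL_mem K (fun i => by
    intro ξ
    rw [D_of (Θ_L i)]) q ξ

theorem D_T (ξ : G ⧸ N) : D T ξ = w ξ := by rw [D_of Θ_T]

/-- conjugates of `T` -/
def τ (q : Q) : G := ιL q * T * (ιL q)⁻¹

theorem τ_N (q : Q) : τ q ∈ N := N_conj (ιL_mem_B q) T_N

theorem D_τ (q : Q) : D (τ q) ((ιL q : G) : G ⧸ N) = 1 := by
  have h1 : (ιL q)⁻¹ • ((ιL q : G) : G ⧸ N) = ((1 : G) : G ⧸ N) := by
    rw [MulAction.Quotient.smul_coe, smul_eq_mul, inv_mul_cancel]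
  rw [τ, D_mul, ← map_inv, D_ιL, map_inv, h1, D_mul, D_T, D_ιL]
  simp [w]

/-- **Key lemma.** -/
theorem star (H : Subgroup G) (hfg : H.FG) (hN : N ≤ H) : B ≤ H := by
  classical
  obtain ⟨S', hS'⟩ := hfg
  -- the finite set of cosets
  set F : Set (G ⧸ N) := ⋃ s ∈ S', Function.support (D s) with hF
  have hFfin : F.Finite := by
    rw [hF]
    exact Set.Finite.biUnion S'.finite_toSet (fun s _ => (main s).2)
  -- supports of elements of `H`
  have hsupp : ∀ h ∈ H, ∀ ξ, D h ξ ≠ 0 → ∃ k ∈ H, ∃ f ∈ F, ξ = k • f := by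
    intro h hh
    rw [← hS'] at hh
    refine Subgroup.closure_induction
      (p := fun h _ => ∀ ξ, D h ξ ≠ 0 → ∃ k ∈ H, ∃ f ∈ F, ξ = k • f) ?_ ?_ ?_ ?_ hh
    · intro s hs ξ hξ
      refine ⟨1, H.one_mem, ξ, ?_, (one_smul _ _).symm⟩
      rw [hF]
      simp only [Set.mem_iUnion]
      exact ⟨s, hs, hξ⟩
    · intro ξ hξ
      exact absurd (D_one ξ) hξ
    · intro a b ha hb iha ihb ξ hξ
      rw [D_mul] at hξ
      by_cases h1 : D b ξ = 0
      · have h2 : D a (b • ξ) ≠ 0 := by
          intro h2; exact hξ (by rw [h1, h2, add_zero])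
        obtain ⟨k, hk, f, hf, hkf⟩ := iha _ h2
        refine ⟨b⁻¹ * k, H.mul_mem (H.inv_mem (by rw [← hS']; exact hb)) hk, f, hf, ?_⟩
        rw [mul_smul, ← hkf, inv_smul_smul]
      · exact ihb ξ h1
    · intro a ha iha ξ hξ
      rw [D_inv, neg_ne_zero] at hξ
      obtain ⟨k, hk, f, hf, hkf⟩ := iha _ hξ
      refine ⟨a * k, H.mul_mem (by rw [← hS']; exact ha) hk, f, hf, ?_⟩
      rw [mul_smul, ← hkf, smul_inv_smul]
  -- the covering
  have hcov : ∀ q : Q, ∃ f : F, ∃ k ∈ H, ((ιL q : G) : G ⧸ N) = k • (f : G ⧸ N) := by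
    intro q
    obtain ⟨k, hk, f, hf, hkf⟩ := hsupp (τ q) (hN (τ_N q)) ((ιL q : G) : G ⧸ N)
      (by rw [D_τ]; exact one_ne_zero)
    exact ⟨⟨f, hf⟩, k, hk, hkf⟩
  choose c hc using hcov
  set K : Subgroup Q := H.comap ιL with hK
  have hsame : ∀ q q' : Q, c q = c q' → q' * q⁻¹ ∈ K := by
    intro q q' hcc
    obtain ⟨k, hk, h1⟩ := hc q
    obtain ⟨k', hk', h2⟩ := hc q'
    rw [← hcc] at h2
    have h3 : ((ιL q' : G) : G ⧸ N) = (k' * k⁻¹) • ((ιL q : G) : G ⧸ N) := by
      rw [h1, h2, mul_smul, inv_smul_smul]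
    rw [MulAction.Quotient.smul_coe, smul_eq_mul, QuotientGroup.eq] at h3
    -- (ιL q')⁻¹ * (k' * k⁻¹ * ιL q) ∈ N
    have h4 := N_conj (ιL_mem_B q') h3
    have h5 : ιL q' * ((ιL q')⁻¹ * (k' * k⁻¹ * ιL q)) * (ιL q')⁻¹ =
        k' * k⁻¹ * (ιL (q' * q⁻¹))⁻¹ := by
      rw [map_mul, map_inv]; group
    rw [h5] at h4
    have h6 := hN h4
    have h7 : (ιL (q' * q⁻¹))⁻¹ ∈ H := by
      have := H.mul_mem (H.inv_mem (H.mul_mem hk' (H.inv_mem hk))) h6
      rwa [inv_mul_cancel_left] at this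
    rw [hK, Subgroup.mem_comap]
    exact (Subgroup.inv_mem_iff H).1 h7
  have hfin : Finite (Q ⧸ K) := by
    have : Finite F := hFfin
    refine Finite.of_injective (fun x : Q ⧸ K => c (x.out)⁻¹) ?_
    intro x y hxy
    have h1 := hsame _ _ hxy
    rw [inv_inv] at h1
    -- y.out⁻¹ * x.out ∈ K
    rw [← QuotientGroup.out_eq' x, ← QuotientGroup.out_eq' y, eq_comm, QuotientGroup.eq]
    exact h1
  have : K.FiniteIndex := Subgroup.finiteIndex_of_finite_quotient
  have hKtop := Higman.eq_top_of_finiteIndex K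
  have hL' : ∀ q : Q, ιL q ∈ H := by
    intro q
    have : q ∈ K := by rw [hKtop]; trivial
    exact this
  exact B_le H (fun i => by rw [← ιL_of]; exact hL' _) (fun i => hN (M_N i)) (hN X_N) (hN Y_N)
    (hN T_N)

end Pool.Agent.Work.MP_29a457_al.Star
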