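import Mathlib
import Pool.Agent.Work.MP_29a457_al.Defs
import Pool.Agent.Work.MP_29a457_al.TreeGeom
import Pool.Agent.Work.MP_29a457_al.Star
import Pool.Agent.Work.MP_29a457_al.Rep

/-!
# Every acylindrical action of `G` on a tree without a global fixed vertex has an edge
stabiliser that is not finitely generated
(helper39, for MP_29a457_al)
-/

namespace Pool.Agent.Work.MP_29a457_al.Acyl

open Higman (Q)
open Grp TreeGeom

/-- Heisenberg relation -/
theorem conj_pow_Y (m : ℕ) : X * Y ^ m * X⁻¹ = Z ^ m * Y ^ m := by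
  have h : X * Y * X⁻¹ = Z * Y := by rw [Z]; group
  rw [← conj_pow, h, hZY.mul_pow]

theorem heis (n m : ℕ) : X ^ n * Y ^ m * (X ^ n)⁻¹ = Z ^ (n * m) * Y ^ m := by
  induction n with
  | zero => simp
  | succ n ih =>
    have h1 : X ^ (n + 1) * Y ^ m * (X ^ (n + 1))⁻¹ = X * (X ^ n * Y ^ m * (X ^ n)⁻¹) * X⁻¹ := by
      rw [pow_succ']; group
    rw [h1, ih]
    have h2 : X * (Z ^ (n * m) * Y ^ m) * X⁻¹ = Z ^ (n * m) * (X * Y ^ m * X⁻¹) := by
      have := (hZX.pow_left (n * m)).eq
      calc X * (Z ^ (n * m) * Y ^ m) * X⁻¹ = (X * Z ^ (n * m)) * Y ^ m * X⁻¹ := by group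
        _ = (Z ^ (n * m) * X) * Y ^ m * X⁻¹ := by rw [this]
        _ = _ := by group
    rw [h2, conj_pow_Y, ← mul_assoc, ← pow_add]
    congr 2
    ring

theorem Z_sq (n : ℕ) : Z ^ (n * n) = X ^ n * Y ^ n * (X ^ n)⁻¹ * (Y ^ n)⁻¹ := by
  rw [heis]; group

section

variable {V : Type*} [MulAction G V] {T : SimpleGraph V}

/-- length of an element at `v` -/
noncomputable def len (T : SimpleGraph V) (v : V) (g : G) : ℕ := T.dist v (g • v)

theorem len_mul (hT : IsTreeAction G T) (v : V) (g h : G) :
    len T v (g * h) ≤ len T v g + len T v h := by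
  unfold len
  have h1 := hT.isTree.connected.dist_triangle (u := v) (v := g • v) (w := (g * h) • v)
  have h2 : T.dist (g • v) ((g * h) • v) = T.dist v (h • v) := by
    rw [mul_smul, dist_smul hT.adj_smul]
  omega

theorem len_inv (hT : IsTreeAction G T) (v : V) (g : G) : len T v g⁻¹ = len T v g := by
  unfold len
  rw [← dist_smul hT.adj_smul g v (g⁻¹ • v), smul_inv_smul, SimpleGraph.dist_comm]

theorem len_pow (hT : IsTreeAction G T) (v : V) (g : G) (n : ℕ) :
    len T v (g ^ n) ≤ n * len T v g := by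
  induction n with
  | zero => simp [len]
  | succ n ih =>
    rw [pow_succ]
    have := len_mul hT v (g ^ n) g
    rw [Nat.succ_mul]
    omega

/-- `Z` fixes a vertex -/
theorem Z_fixes (hT : IsTreeAction G T) : ∃ v : V, Z • v = v := by
  by_contra hno
  push Not at hno
  obtain ⟨v, hv⟩ := exists_displacement hT.isTree hT.adj_smul hT.no_inversion Z hno
  set c := len T v X + len T v Y with hc
  have h1 : ∀ n : ℕ, n * n ≤ n * (2 * c) := by
    intro n
    have h2 := hv (n * n)
    have h3 : len T v (Z ^ (n * n)) ≤ n * (2 * c) := by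
      rw [Z_sq]
      have e1 := len_mul hT v (X ^ n * Y ^ n * (X ^ n)⁻¹) (Y ^ n)⁻¹
      have e2 := len_mul hT v (X ^ n * Y ^ n) (X ^ n)⁻¹
      have e3 := len_mul hT v (X ^ n) (Y ^ n)
      rw [len_inv hT] at e1 e2
      have e4 := len_pow hT v X n
      have e5 := len_pow hT v Y n
      have : n * (2 * c) = 2 * (n * len T v X) + 2 * (n * len T v Y) := by rw [hc]; ring
      omega
    exact h2.trans h3
  have h2 := h1 (2 * c + 1)
  have h3 : 2 * c + 1 ≤ 2 * c := Nat.le_of_mul_le_mul_left h2 (by omega)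
  omega

/-- points between fixed points are fixed -/
theorem fix_between (hT : IsTreeAction G T) {u v x : V} {g : G}
    (h : T.dist u v = T.dist u x + T.dist x v) (hu : g • u = u) (hv : g • v = v) : g • x = x := by
  have h1 : T.dist u (g • x) = T.dist u x := by
    conv_lhs => rw [← hu]
    exact dist_smul hT.adj_smul g u x
  have h2 : T.dist v (g • x) = T.dist v x := by
    conv_lhs => rw [← hv]
    exact dist_smul hT.adj_smul g v x
  have h3 : T.dist x (g • x) = 0 := by
    rcases between_sep hT.isTree h (g • x) with h4 | h4 <;> omega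
  exact ((hT.isTree.connected.dist_eq_zero_iff).1 h3).symm

/-- stabilisers of far away pairs are small -/
theorem stab_pair (hT : IsTreeAction G T) {k C : ℕ} (hac : IsAcylindricalWith G T k C) {u v : V}
    (h : k ≤ T.dist u v) : {g : G | g • u = u ∧ g • v = v}.encard ≤ C := by
  classical
  obtain ⟨P, hP, hPl⟩ := hT.isTree.connected.exists_path_of_dist u v
  refine le_trans (Set.encard_le_encard ?_) (hac u v P hP (by omega))
  rintro g ⟨hu, hv⟩ x hx
  apply fix_between hT ?_ hu hv
  have h1 := SimpleGraph.dist_le (P.takeUntil x hx)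
  have h2 := SimpleGraph.dist_le (P.dropUntil x hx)
  have h3 : (P.takeUntil x hx).length + (P.dropUntil x hx).length = P.length := by
    rw [← SimpleGraph.Walk.length_append, P.take_spec hx]
  have h4 := hT.isTree.connected.dist_triangle (u := u) (v := x) (w := v)
  omega

/-- the fixed set of `Z` is bounded -/
theorem fix_Z_bounded (hT : IsTreeAction G T) {k C : ℕ} (hac : IsAcylindricalWith G T k C)
    {u v : V} (hu : Z • u = u) (hv : Z • v = v) : T.dist u v ≤ k := by
  by_contra hlt
  push Not at hlt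
  have h1 := stab_pair hT hac hlt.le
  have h2 : Set.range (fun i : ℤ => Z ^ i) ⊆ {g : G | g • u = u ∧ g • v = v} := by
    rintro _ ⟨i, rfl⟩
    have h3 : ∀ w : V, Z • w = w → Z ^ i • w = w := by
      intro w hw
      exact MulAction.mem_stabilizer_iff.1
        (Subgroup.zpow_mem _ (MulAction.mem_stabilizer_iff.2 hw) i)
    exact ⟨h3 u hu, h3 v hv⟩
  have h3 : (Set.range (fun i : ℤ => Z ^ i)).Infinite :=
    Set.infinite_range_of_injective (fun i j h => Rep.Z_zpow_inj h)
  have h4 := (h3.mono h2).encard_eq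
  rw [h4] at h1
  exact absurd h1 (by simp)

/-- **Negative half.** -/
theorem main (hT : IsTreeAction G T) (hac : IsAcylindrical G T)
    (hfix : ¬ ∃ v : V, ∀ g : G, g • v = v) :
    ∃ u v : V, T.Adj u v ∧ ¬ (edgeStabilizer G u v).FG := by
  classical
  obtain ⟨k, C, -, hac⟩ := hac
  obtain ⟨v₀, hv₀⟩ := Z_fixes hT
  -- the centraliser of `Z` fixes `a`
  obtain ⟨a, ha⟩ := exists_fixed_of_bounded hT.isTree hT.adj_smul hT.no_inversion
    (Subgroup.centralizer {Z}) {v : V | Z • v = v} ⟨v₀, hv₀⟩
    (by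
      intro g hg s hs
      have hc : Commute g Z := mem_cent.1 hg
      change Z • (g • s) = g • s
      rw [← mul_smul, ← hc.eq, mul_smul, show Z • s = s from hs])
    k (fun s hs t ht => fix_Z_bounded hT hac hs ht)
  have hNa : ∀ n ∈ N, n • a = a := fun n hn => ha n (mem_cent.2 (N_comm_Z hn))
  have hSa : S • a = a := ha S (mem_cent.2 hSZ)
  -- `B` fixes `b`
  obtain ⟨b, hb⟩ := exists_fixed_of_bounded hT.isTree hT.adj_smul hT.no_inversion
    B {v : V | ∀ n ∈ N, n • v = v} ⟨a, hNa⟩
    (by
      intro g hg s hs n hn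
      have h1 : g⁻¹ * n * g ∈ N := by
        have := N_conj (B.inv_mem hg) hn
        rwa [inv_inv] at this
      have h2 := hs _ h1
      calc n • g • s = g • (g⁻¹ * n * g) • s := by
            rw [smul_smul, smul_smul]; congr 1; group
        _ = g • s := by rw [h2])
    k (fun s hs t ht => fix_Z_bounded hT hac (hs Z Z_N) (ht Z Z_N))
  -- `B` does not fix `a`
  have hBa : ¬ ∀ g ∈ B, g • a = a := by
    intro h
    apply hfix
    refine ⟨a, fun g => ?_⟩
    exact MulAction.mem_stabilizer_iff.1 (generated (MulAction.stabilizer G a)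
      (fun i => h _ (L_mem i)) (fun i => h _ (M_mem i)) (h _ X_mem) (h _ Y_mem) (h _ T_mem) hSa g)
  -- last vertex on the path from `b` to `a` fixed by `B`
  have hex : ∃ d : ℕ, ∃ u : V, (∀ g ∈ B, g • u = u) ∧
      T.dist b a = T.dist b u + T.dist u a ∧ T.dist u a = d :=
    ⟨_, b, hb, by simp, rfl⟩
  obtain ⟨u, hu1, hu2, hu3⟩ := Nat.find_spec hex
  have hua : a ≠ u := by
    rintro rfl
    exact hBa hu1
  obtain ⟨p, hp, hpd⟩ := exists_closer hT.isTree hua
  have hbp : T.dist b a = T.dist b p + T.dist p a := by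
    have h1 := hT.isTree.connected.dist_triangle (u := b) (v := u) (w := p)
    have h2 : T.dist u p = 1 := SimpleGraph.dist_eq_one_iff_adj.2 hp
    have h3 := hT.isTree.connected.dist_triangle (u := b) (v := p) (w := a)
    rw [SimpleGraph.dist_comm (u := a) (v := u), SimpleGraph.dist_comm (u := a) (v := p)] at hpd
    omega
  have hNp : ∀ n ∈ N, n • p = p := by
    intro n hn
    exact fix_between hT hbp (hb n hn.1) (hNa n hn)
  refine ⟨u, p, hp, fun hfg => ?_⟩
  have h1 : N ≤ edgeStabilizer G u p := by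
    intro n hn
    exact ⟨hu1 n hn.1, hNp n hn⟩
  have h2 := Star.star _ hfg h1
  have h3 : ∀ g ∈ B, g • p = p := fun g hg => (h2 hg).2
  have h4 : T.dist p a < Nat.find hex := by
    rw [← hu3]
    rw [SimpleGraph.dist_comm (u := a) (v := u), SimpleGraph.dist_comm (u := a) (v := p)] at hpd
    omega
  exact Nat.find_min hex h4 ⟨p, h3, hbp, rfl⟩

end

end Pool.Agent.Work.MP_29a457_al.Acyl
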