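import Mathlib
import Pool.Agent.Work.MP_29a457_al.Grp
import Pool.Agent.Work.MP_29a457_al.Rep
import Pool.Agent.Work.MP_29a457_al.CosetTree

/-!
# `G` as a semidirect product `F ⋊ B`, and the amalgam structure `G = B *_N A`
(helper39, for MP_29a457_al)
-/

namespace Pool.Agent.Work.MP_29a457_al.Semi

open Higman (Q)
open Grp Monoid

/-! ### Letters of words in free groups -/

section words

variable {α : Type*} [DecidableEq α]

theorem toWord_map (σ : α → α) (hσ : Function.Injective σ) (f : FreeGroup α) :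
    (FreeGroup.map σ f).toWord = f.toWord.map (fun x => (σ x.1, x.2)) := by
  have h1 : FreeGroup.map σ f = FreeGroup.mk (f.toWord.map (fun x => (σ x.1, x.2))) := by
    conv_lhs => rw [← FreeGroup.mk_toWord (x := f)]
    rfl
  rw [h1, FreeGroup.toWord_mk]
  apply FreeGroup.IsReduced.reduce_eq
  have h2 : FreeGroup.IsReduced f.toWord := FreeGroup.isReduced_toWord
  unfold FreeGroup.IsReduced at h2 ⊢
  exact List.isChain_map_of_isChain _ (fun a b h hab => h (hσ hab)) h2

theorem letter_fixed (σ : α → α) (hσ : Function.Injective σ) (f : FreeGroup α)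
    (h : FreeGroup.map σ f = f) : ∀ x ∈ f.toWord, σ x.1 = x.1 := by
  have h1 := toWord_map σ hσ f
  rw [h] at h1
  have h2 : f.toWord.map (fun x => (σ x.1, x.2)) = f.toWord.map id := by
    rw [List.map_id, ← h1]
  rw [List.map_inj_left] at h2
  intro x hx
  exact congrArg Prod.fst (h2 x hx)

theorem letters_of_mem (P : α → Prop) (f : FreeGroup α)
    (hf : f ∈ Subgroup.closure (FreeGroup.of '' {a | P a})) : ∀ x ∈ f.toWord, P x.1 := by
  let K : Subgroup (FreeGroup α) :=
    { carrier := {f | ∀ x ∈ f.toWord, P x.1}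
      mul_mem' := by
        intro a b ha hb x hx
        have h1 := (FreeGroup.toWord_mul_sublist a b).subset hx
        rcases List.mem_append.1 h1 with h2 | h2
        · exact ha x h2
        · exact hb x h2
      one_mem' := by
        intro x hx
        rw [FreeGroup.toWord_one] at hx
        exact absurd hx (by simp)
      inv_mem' := by
        intro a ha x hx
        rw [FreeGroup.toWord_inv, FreeGroup.invRev, List.mem_reverse, List.mem_map] at hx
        obtain ⟨y, hy, rfl⟩ := hx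
        exact ha y hy }
  have h1 : Subgroup.closure (FreeGroup.of '' {a | P a}) ≤ K := by
    rw [Subgroup.closure_le]
    rintro _ ⟨a, ha, rfl⟩ x hx
    rw [FreeGroup.toWord_of, List.mem_singleton] at hx
    rw [hx]
    exact ha
  exact h1 hf

end words

/-! ### The semidirect product -/

/-- `Z` as an element of `B` -/
def Z' : ↥B := ⟨Z, Z_mem⟩

/-- the set of letters -/
abbrev J := ↥B ⧸ Subgroup.zpowers Z'

/-- projection of `B` -/
def πB : ↥B →* Q := π.comp B.subtype

theorem πB_apply (b : ↥B) : πB b = π b := rfl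

theorem π_Z : π Z = 1 := Z_N.2

/-- colour of a letter -/
def κ : J → Q := Quotient.lift (fun b : ↥B => πB b) (by
  intro a b hab
  have h1 : a⁻¹ * b ∈ Subgroup.zpowers Z' := QuotientGroup.leftRel_apply.1 hab
  obtain ⟨i, hi⟩ := Subgroup.mem_zpowers_iff.1 h1
  have h2 : πB (a⁻¹ * b) = 1 := by
    rw [← hi, map_zpow]
    have : πB Z' = 1 := π_Z
    rw [this, one_zpow]
  rw [map_mul, map_inv, inv_mul_eq_one] at h2
  exact h2)

theorem κ_mk (b : ↥B) : κ (b : J) = πB b := rfl

theorem κ_smul (b : ↥B) (j : J) : κ (b • j) = πB b * κ j := by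
  induction j using QuotientGroup.induction_on with
  | H a => rw [MulAction.Quotient.smul_coe, κ_mk, κ_mk, smul_eq_mul, map_mul]

/-- the action on the free group -/
def φ : ↥B →* MulAut (FreeGroup J) where
  toFun b := FreeGroup.freeGroupCongr (MulAction.toPerm b)
  map_one' := by
    ext1 f
    change FreeGroup.map (fun j : J => (1 : ↥B) • j) f = f
    simp
  map_mul' a b := by
    ext1 f
    change FreeGroup.map (fun j : J => (a * b) • j) f =
      FreeGroup.map (fun j : J => a • j) (FreeGroup.map (fun j : J => b • j) f)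
    rw [FreeGroup.map.comp]
    congr 2
    ext j
    simp [mul_smul]

theorem φ_apply (b : ↥B) (f : FreeGroup J) : φ b f = FreeGroup.map (fun j : J => b • j) f := rfl

theorem φ_of (b : ↥B) (j : J) : φ b (FreeGroup.of j) = FreeGroup.of (b • j) := rfl

/-- the semidirect product -/
abbrev SD := FreeGroup J ⋊[φ] ↥B

open SemidirectProduct in
/-- images of the generators -/
def gens : Gen → SD
  | .l i => inr ⟨L i, L_mem i⟩
  | .m i => inr ⟨M i, M_mem i⟩
  | .x => inr ⟨X, X_mem⟩
  | .y => inr ⟨Y, Y_mem⟩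
  | .t => inr ⟨T, T_mem⟩
  | .s => inl (FreeGroup.of ((1 : ↥B) : J))

theorem Z'_fix : Z' • ((1 : ↥B) : J) = ((1 : ↥B) : J) := by
  rw [MulAction.Quotient.smul_coe, smul_eq_mul, mul_one, QuotientGroup.eq]
  exact Subgroup.mem_zpowers_iff.2 ⟨-1, by simp⟩

theorem comm_inr {a b : G} (ha : a ∈ B) (hb : b ∈ B) (h : Commute a b) :
    Commute (SemidirectProduct.inr (φ := φ) ⟨a, ha⟩) (SemidirectProduct.inr ⟨b, hb⟩) := by
  rw [Commute, SemiconjBy, ← map_mul, ← map_mul]
  congr 1
  exact Subtype.ext h.eq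

theorem commZ_eq : (SemidirectProduct.inr (φ := φ) ⟨X, X_mem⟩) *
    SemidirectProduct.inr ⟨Y, Y_mem⟩ * (SemidirectProduct.inr ⟨X, X_mem⟩)⁻¹ *
      (SemidirectProduct.inr ⟨Y, Y_mem⟩)⁻¹ = SemidirectProduct.inr Z' := by
  rw [← map_inv, ← map_inv, ← map_mul, ← map_mul, ← map_mul]
  rfl

/-- the isomorphism onto the semidirect product -/
def Φ : G →* SD :=
  PresentedGroup.toGroup (f := gens) (lift_rel gens
    (fun i => by
      simp only [gens]
      rw [← map_mul, ← map_inv, ← map_mul, ← map_pow]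
      congr 1
      exact Subtype.ext (hL i))
    (fun i => by
      simp only [gens]
      rw [← map_mul, ← map_inv, ← map_mul, ← map_pow]
      congr 1
      exact Subtype.ext (hM i))
    (fun i j => comm_inr _ _ (hLM i j))
    (fun i => by
      simp only [gens]
      rw [← map_mul]
      exact comm_inr _ _ (hXLM i))
    (fun i => comm_inr _ _ (hYL i))
    (fun i => comm_inr _ _ (hTM i))
    (comm_inr _ _ hTX) (comm_inr _ _ hTY)
    (fun i => by simp only [gens]; rw [commZ_eq]; exact comm_inr _ _ (hZM i))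
    (by simp only [gens]; rw [commZ_eq]; exact comm_inr _ _ hZX)
    (by simp only [gens]; rw [commZ_eq]; exact comm_inr _ _ hZY)
    (by
      simp only [gens]
      rw [commZ_eq, Commute, SemiconjBy]
      have h1 := SemidirectProduct.inl_aut (φ := φ) Z' (FreeGroup.of ((1 : ↥B) : J))
      rw [φ_of, Z'_fix, map_inv] at h1
      exact eq_mul_inv_iff_mul_eq.1 h1))

theorem Φ_L (i : Fin 4) : Φ (L i) = SemidirectProduct.inr ⟨L i, L_mem i⟩ :=
  PresentedGroup.toGroup.of _
theorem Φ_M (i : Fin 4) : Φ (M i) = SemidirectProduct.inr ⟨M i, M_mem i⟩ :=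
  PresentedGroup.toGroup.of _
theorem Φ_X : Φ X = SemidirectProduct.inr ⟨X, X_mem⟩ := PresentedGroup.toGroup.of _
theorem Φ_Y : Φ Y = SemidirectProduct.inr ⟨Y, Y_mem⟩ := PresentedGroup.toGroup.of _
theorem Φ_T : Φ T = SemidirectProduct.inr ⟨T, T_mem⟩ := PresentedGroup.toGroup.of _
theorem Φ_S : Φ S = SemidirectProduct.inl (FreeGroup.of ((1 : ↥B) : J)) :=
  PresentedGroup.toGroup.of _

theorem Φ_B {b : G} (hb : b ∈ B) : Φ b = SemidirectProduct.inr ⟨b, hb⟩ := by
  let K : Subgroup G :=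
    { carrier := {g | ∃ h : g ∈ B, Φ g = SemidirectProduct.inr ⟨g, h⟩}
      mul_mem' := by
        rintro a b ⟨ha, ha'⟩ ⟨hb, hb'⟩
        refine ⟨B.mul_mem ha hb, ?_⟩
        rw [map_mul, ha', hb', ← map_mul]
        rfl
      one_mem' := ⟨B.one_mem, by rw [map_one]; rfl⟩
      inv_mem' := by
        rintro a ⟨ha, ha'⟩
        refine ⟨B.inv_mem ha, ?_⟩
        rw [map_inv, ha', ← map_inv]
        rfl }
  obtain ⟨_, h⟩ := B_le K (fun i => ⟨_, Φ_L i⟩) (fun i => ⟨_, Φ_M i⟩) ⟨_, Φ_X⟩ ⟨_, Φ_Y⟩ ⟨_, Φ_T⟩ hb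
  exact h

/-- conjugates of `S` -/
def sj : J → G := Quotient.lift (fun b : ↥B => (b : G) * S * (b : G)⁻¹) (by
  intro a b hab
  have h1 : a⁻¹ * b ∈ Subgroup.zpowers Z' := QuotientGroup.leftRel_apply.1 hab
  obtain ⟨i, hi⟩ := Subgroup.mem_zpowers_iff.1 h1
  have h2 : (b : G) = a * Z ^ i := by
    have h3 : b = a * Z' ^ i := by rw [hi]; group
    rw [h3]
    rfl
  have h4 : Commute (Z ^ i) S := (hSZ.symm).zpow_left i
  change (a : G) * S * (a : G)⁻¹ = (b : G) * S * (b : G)⁻¹
  rw [h2]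
  calc (a : G) * S * (a : G)⁻¹ = a * (S * Z ^ i) * (Z ^ i)⁻¹ * (a : G)⁻¹ := by group
    _ = a * (Z ^ i * S) * (Z ^ i)⁻¹ * (a : G)⁻¹ := by rw [h4.eq]
    _ = _ := by group)

theorem sj_mk (b : ↥B) : sj (b : J) = (b : G) * S * (b : G)⁻¹ := rfl

theorem sj_smul (b : ↥B) (j : J) : sj (b • j) = (b : G) * sj j * (b : G)⁻¹ := by
  induction j using QuotientGroup.induction_on with
  | H a =>
    rw [MulAction.Quotient.smul_coe, sj_mk, sj_mk, smul_eq_mul]
    push_cast
    group

/-- the inverse -/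
def Ψ : SD →* G := SemidirectProduct.lift (FreeGroup.lift sj) B.subtype (by
  intro g
  apply FreeGroup.ext_hom
  intro j
  simp only [MonoidHom.comp_apply, MulEquiv.coe_toMonoidHom, φ_of, FreeGroup.lift_apply_of,
    sj_smul, MulAut.conj_apply, Subgroup.coe_subtype])

theorem Ψ_Φ (g : G) : Ψ (Φ g) = g := by
  have h1 : Ψ.comp Φ = MonoidHom.id G := by
    apply PresentedGroup.ext
    intro i
    rw [MonoidHom.comp_apply, MonoidHom.id_apply]
    cases i with
    | l i =>
      change Ψ (Φ (L i)) = L i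
      rw [Φ_L, Ψ, SemidirectProduct.lift_inr]; rfl
    | m i =>
      change Ψ (Φ (M i)) = M i
      rw [Φ_M, Ψ, SemidirectProduct.lift_inr]; rfl
    | x =>
      change Ψ (Φ X) = X
      rw [Φ_X, Ψ, SemidirectProduct.lift_inr]; rfl
    | y =>
      change Ψ (Φ Y) = Y
      rw [Φ_Y, Ψ, SemidirectProduct.lift_inr]; rfl
    | t =>
      change Ψ (Φ T) = T
      rw [Φ_T, Ψ, SemidirectProduct.lift_inr]; rfl
    | s =>
      change Ψ (Φ S) = S
      rw [Φ_S, Ψ, SemidirectProduct.lift_inl, FreeGroup.lift_apply_of, sj_mk]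
      simp
  exact DFunLike.congr_fun h1 g

theorem left_of_B {b : G} (hb : b ∈ B) : (Φ b).left = 1 := by rw [Φ_B hb]; rfl

theorem mem_B_of_left {g : G} (h : (Φ g).left = 1) : g ∈ B := by
  have h1 : Φ g = SemidirectProduct.inr (Φ g).right := by
    apply SemidirectProduct.ext
    · rw [h]; rfl
    · rfl
  rw [← Ψ_Φ g, h1, Ψ, SemidirectProduct.lift_inr]
  exact (Φ g).right.2

/-! ### The subgroup `A` -/

/-- the free subgroup on the letters of colour `q` -/
def Fq (q : Q) : Subgroup (FreeGroup J) := Subgroup.closure (FreeGroup.of '' {j | κ j = q})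

theorem φ_mem {q : Q} {f : FreeGroup J} (hf : f ∈ Fq q) (b : ↥B) : φ b f ∈ Fq (πB b * q) := by
  have h1 : Fq q ≤ (Fq (πB b * q)).comap (φ b).toMonoidHom := by
    rw [Fq, Subgroup.closure_le]
    rintro _ ⟨j, hj, rfl⟩
    change φ b (FreeGroup.of j) ∈ Fq (πB b * q)
    rw [φ_of]
    apply Subgroup.subset_closure
    refine ⟨_, ?_, rfl⟩
    change κ (b • j) = _
    rw [κ_smul, show κ j = q from hj]
  exact h1 hf

/-- the subgroup `A = ⟨N, S⟩` -/
def A : Subgroup G where
  carrier := {g | (Φ g).left ∈ Fq 1 ∧ πB (Φ g).right = 1}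
  mul_mem' := by
    rintro a b ⟨ha, ha'⟩ ⟨hb, hb'⟩
    refine ⟨?_, ?_⟩
    · rw [map_mul, SemidirectProduct.mul_left]
      have := φ_mem hb (Φ a).right
      rw [ha', one_mul] at this
      exact (Fq 1).mul_mem ha this
    · rw [map_mul, SemidirectProduct.mul_right, map_mul, ha', hb', one_mul]
  one_mem' := by
    refine ⟨?_, ?_⟩
    · rw [map_one]; exact (Fq 1).one_mem
    · rw [map_one]; exact map_one πB
  inv_mem' := by
    rintro a ⟨ha, ha'⟩
    refine ⟨?_, ?_⟩
    · rw [map_inv, SemidirectProduct.inv_left]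
      have := φ_mem ((Fq 1).inv_mem ha) (Φ a).right⁻¹
      rw [map_inv, ha', inv_one, one_mul] at this
      exact this
    · rw [map_inv, SemidirectProduct.inv_right, map_inv, ha', inv_one]

theorem mem_A {g : G} : g ∈ A ↔ (Φ g).left ∈ Fq 1 ∧ πB (Φ g).right = 1 := Iff.rfl

theorem S_A : S ∈ A := by
  rw [mem_A, Φ_S]
  refine ⟨Subgroup.subset_closure ⟨_, ?_, rfl⟩, ?_⟩
  · change κ ((1 : ↥B) : J) = 1
    rw [κ_mk, map_one]
  · exact map_one πB

theorem mem_A_of_B {b : G} (hb : b ∈ B) : b ∈ A ↔ π b = 1 := by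
  rw [mem_A, Φ_B hb]
  constructor
  · exact fun h => h.2
  · intro h
    exact ⟨(Fq 1).one_mem, h⟩

theorem S_not_B : S ∉ B := by
  intro h
  have h1 := left_of_B h
  rw [Φ_S] at h1
  exact FreeGroup.of_ne_one _ h1

theorem gen : A ⊔ B = ⊤ := by
  rw [eq_top_iff]
  intro g _
  have hB : B ≤ A ⊔ B := le_sup_right
  exact generated (A ⊔ B) (fun i => hB (L_mem i)) (fun i => hB (M_mem i)) (hB X_mem) (hB Y_mem)
    (hB T_mem) ((le_sup_left : A ≤ A ⊔ B) S_A) g

/-! ### Reduced products -/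

/-- the map to the free product -/
def χ : FreeGroup J →* CoprodI (fun _ : Q => FreeGroup J) :=
  FreeGroup.lift (fun j => CoprodI.of (M := fun _ : Q => FreeGroup J) (i := κ j) (FreeGroup.of j))

theorem χ_mem {q : Q} {f : FreeGroup J} (hf : f ∈ Fq q) :
    χ f = CoprodI.of (M := fun _ : Q => FreeGroup J) (i := q) f := by
  rw [Fq] at hf
  refine Subgroup.closure_induction
    (p := fun f _ => χ f = CoprodI.of (M := fun _ : Q => FreeGroup J) (i := q) f) ?_ ?_ ?_ ?_ hf
  · rintro _ ⟨j, hj, rfl⟩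
    rw [χ, FreeGroup.lift_apply_of, show κ j = q from hj]
  · rw [map_one, map_one]
  · intro a b _ _ ha hb
    rw [map_mul, map_mul, ha, hb]
  · intro a _ ha
    rw [map_inv, map_inv, ha]

theorem red_word (g : G) (hg : CosetTree.Red A B g) : ∀ c : ↥B,
    ∃ w : CoprodI.Word (fun _ : Q => FreeGroup J), w.fstIdx = some (πB c) ∧
      w.prod = χ (φ c (Φ g).left) := by
  induction hg with
  | single a ha ha' =>
    intro c
    have h1 := φ_mem ha.1 c
    rw [mul_one] at h1
    have h2 : φ c (Φ a).left ≠ 1 := by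
      rw [Ne, map_eq_one_iff _ (φ c).injective]
      exact fun h => ha' (mem_B_of_left h)
    refine ⟨CoprodI.Word.cons (i := πB c) (φ c (Φ a).left) CoprodI.Word.empty
      (by simp [CoprodI.Word.fstIdx, CoprodI.Word.empty]) h2, CoprodI.Word.fstIdx_cons _ _ _ _, ?_⟩
    rw [CoprodI.Word.prod_cons, CoprodI.Word.prod_empty, mul_one, χ_mem h1]
  | cons a b g ha ha' hb hb' hg ih =>
    intro c
    have h1 := φ_mem ha.1 c
    rw [mul_one] at h1
    have h2 : φ c (Φ a).left ≠ 1 := by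
      rw [Ne, map_eq_one_iff _ (φ c).injective]
      exact fun h => ha' (mem_B_of_left h)
    have h3 : (Φ (a * b * g)).left = (Φ a).left * φ ((Φ a).right * ⟨b, hb⟩) (Φ g).left := by
      rw [map_mul, map_mul, SemidirectProduct.mul_left, SemidirectProduct.mul_left, Φ_B hb]
      simp
    obtain ⟨w, hw1, hw2⟩ := ih (c * ((Φ a).right * ⟨b, hb⟩))
    have h4 : πB (c * ((Φ a).right * ⟨b, hb⟩)) ≠ πB c := by
      rw [map_mul, map_mul, ha.2, one_mul]
      intro h
      rw [mul_eq_left] at h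
      exact hb' ((mem_A_of_B hb).2 h)
    have h5 : w.fstIdx ≠ some (πB c) := by
      rw [hw1]
      intro h
      exact h4 (Option.some_injective _ h)
    refine ⟨CoprodI.Word.cons (i := πB c) (φ c (Φ a).left) w h5 h2,
      CoprodI.Word.fstIdx_cons _ _ _ _, ?_⟩
    have h6 : φ c ((Φ a).left * φ ((Φ a).right * ⟨b, hb⟩) (Φ g).left) =
        φ c (Φ a).left * φ (c * ((Φ a).right * ⟨b, hb⟩)) (Φ g).left := by
      rw [map_mul (φ c), map_mul φ c]
      rfl
    rw [CoprodI.Word.prod_cons, hw2, h3, h6, map_mul χ, χ_mem h1]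

theorem red_not_B (g : G) (hg : CosetTree.Red A B g) : g ∉ B := by
  classical
  intro hB
  obtain ⟨w, hw1, hw2⟩ := red_word g hg 1
  rw [left_of_B hB, map_one, map_one] at hw2
  have h1 : w = CoprodI.Word.empty := by
    apply CoprodI.Word.equiv.symm.injective
    change w.prod = CoprodI.Word.empty.prod
    rw [hw2, CoprodI.Word.prod_empty]
  rw [h1] at hw1
  simp [CoprodI.Word.fstIdx, CoprodI.Word.empty] at hw1

/-! ### Small intersections -/

theorem small {a m : G} (ha : a ∈ A) (ha' : a ∉ B) (hm : m ∈ A) (hmB : m ∈ B)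
    (h : a⁻¹ * m * a ∈ B) : ∃ i : ℤ, m = Z ^ i := by
  classical
  set f := (Φ a).left with hf
  have hf1 : f ≠ 1 := fun h => ha' (mem_B_of_left h)
  have hF : f ∈ Fq 1 := ha.1
  have h1 : m * a = a * (a⁻¹ * m * a) := by group
  have h2 : φ ⟨m, hmB⟩ f = f := by
    have e1 : (Φ (m * a)).left = φ ⟨m, hmB⟩ f := by
      rw [map_mul, SemidirectProduct.mul_left, left_of_B hmB, one_mul, Φ_B hmB]
      rfl
    have e2 : (Φ (a * (a⁻¹ * m * a))).left = f := by
      rw [map_mul, SemidirectProduct.mul_left, left_of_B h, map_one, mul_one]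
    rw [← e1, h1, e2]
  -- `m` fixes the letters of `f`
  have h3 := letter_fixed (fun j : J => (⟨m, hmB⟩ : ↥B) • j) (MulAction.injective _) f h2
  have h4 := letters_of_mem (fun j => κ j = 1) f hF
  have h5 : f.toWord ≠ [] := by
    rw [Ne, FreeGroup.toWord_eq_nil_iff]
    exact hf1
  obtain ⟨x, hx⟩ := List.exists_mem_of_ne_nil _ h5
  have h6 := h3 x hx
  have h7 := h4 x hx
  obtain ⟨β, hβ⟩ := QuotientGroup.mk_surjective x.1
  rw [← hβ] at h6 h7
  rw [κ_mk] at h7
  rw [MulAction.Quotient.smul_coe, smul_eq_mul, eq_comm, QuotientGroup.eq] at h6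
  obtain ⟨i, hi⟩ := Subgroup.mem_zpowers_iff.1 h6
  refine ⟨i, ?_⟩
  have h8 : (Z : G) ^ i = (β : G)⁻¹ * (m * β) := congrArg Subtype.val hi
  have h9 : Commute (β : G) Z := N_comm_Z ⟨β.2, h7⟩
  have h10 : m = β * Z ^ i * (β : G)⁻¹ := by rw [h8]; group
  rw [h10, (h9.zpow_right i).eq]
  group

end Pool.Agent.Work.MP_29a457_al.Semi
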