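import Mathlib
import Pool.Agent.Work.MP_29a457_al.Defs
import Pool.Agent.Work.MP_29a457_al.Semi

/-!
# `G` has a non-elementary acylindrical action on a tree
(helper39, for MP_29a457_al)
-/

namespace Pool.Agent.Work.MP_29a457_al.Exist

open Higman (Q)
open Grp Semi

/-- the vertex set of the Bass–Serre tree -/
abbrev Vx := (G ⧸ B) ⊕ (G ⧸ A)

/-- the Bass–Serre tree -/
abbrev Tr : SimpleGraph Vx := CosetTree.graph A B

theorem isTreeAction : IsTreeAction G Tr where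
  isTree := CosetTree.isTree gen red_not_B
  adj_smul := CosetTree.adj_smul
  no_inversion := CosetTree.no_inversion

theorem smul_inl (g x : G) : g • (Sum.inl (x : G ⧸ B) : Vx) = Sum.inl ((g * x : G) : G ⧸ B) := rfl
theorem smul_inr (g x : G) : g • (Sum.inr (x : G ⧸ A) : Vx) = Sum.inr ((g * x : G) : G ⧸ A) := rfl

theorem inl_eq {x y : G} : (Sum.inl (x : G ⧸ B) : Vx) = Sum.inl (y : G ⧸ B) ↔ x⁻¹ * y ∈ B := by
  rw [Sum.inl.injEq, QuotientGroup.eq]

theorem inr_eq {x y : G} : (Sum.inr (x : G ⧸ A) : Vx) = Sum.inr (y : G ⧸ A) ↔ x⁻¹ * y ∈ A := by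
  rw [Sum.inr.injEq, QuotientGroup.eq]

theorem fix_inl {g x : G} : g • (Sum.inl (x : G ⧸ B) : Vx) = Sum.inl (x : G ⧸ B) ↔
    x⁻¹ * g * x ∈ B := by
  rw [smul_inl, eq_comm, inl_eq, mul_assoc]

theorem fix_inr {g x : G} : g • (Sum.inr (x : G ⧸ A) : Vx) = Sum.inr (x : G ⧸ A) ↔
    x⁻¹ * g * x ∈ A := by
  rw [smul_inr, eq_comm, inr_eq, mul_assoc]

/-- the stabiliser of a segment of length two centred at `x A` -/
theorem seg2 {g x y : G} (hxy : x⁻¹ * y ∈ A) (hxy' : x⁻¹ * y ∉ B) (h1 : x⁻¹ * g * x ∈ B)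
    (h2 : x⁻¹ * g * x ∈ A) (h3 : y⁻¹ * g * y ∈ B) : ∃ i : ℤ, x⁻¹ * g * x = Z ^ i := by
  apply small hxy hxy' h2 h1
  have : (x⁻¹ * y)⁻¹ * (x⁻¹ * g * x) * (x⁻¹ * y) = y⁻¹ * g * y := by group
  rw [this]
  exact h3

/-- an element fixing a path of length four with centre and end points of type `B` is trivial -/
theorem seg4 {v0 v1 v2 v3 v4 : Vx} (h0 : ∃ y : G ⧸ B, v0 = Sum.inl y) (h01 : Tr.Adj v0 v1)
    (h12 : Tr.Adj v1 v2) (h23 : Tr.Adj v2 v3) (h34 : Tr.Adj v3 v4) (n02 : v0 ≠ v2)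
    (n13 : v1 ≠ v3) (n24 : v2 ≠ v4) {g : G} (f0 : g • v0 = v0) (f1 : g • v1 = v1)
    (f2 : g • v2 = v2) (f3 : g • v3 = v3) (f4 : g • v4 = v4) : g = 1 := by
  obtain ⟨y, rfl⟩ := h0
  -- types of the vertices
  obtain ⟨y0, e0, e1⟩ : ∃ y0 : G, y = (y0 : G ⧸ B) ∧ v1 = Sum.inr (y0 : G ⧸ A) := by
    rcases v1 with v1 | v1
    · exact absurd h01 CosetTree.not_adj_inl_inl
    · obtain ⟨y0, h1, h2⟩ := CosetTree.adj_inl_inr.1 h01
      exact ⟨y0, h1, by rw [h2]⟩
  obtain ⟨x1, e2, e1'⟩ : ∃ x1 : G, v2 = Sum.inl (x1 : G ⧸ B) ∧ v1 = Sum.inr (x1 : G ⧸ A) := by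
    rcases v2 with v2 | v2
    · rw [e1] at h12
      obtain ⟨x1, h1, h2⟩ := CosetTree.adj_inl_inr.1 h12.symm
      exact ⟨x1, by rw [h1], by rw [e1, h2]⟩
    · rw [e1] at h12
      exact absurd h12 CosetTree.not_adj_inr_inr
  obtain ⟨x3, e2', e3⟩ : ∃ x3 : G, v2 = Sum.inl (x3 : G ⧸ B) ∧ v3 = Sum.inr (x3 : G ⧸ A) := by
    rcases v3 with v3 | v3
    · rw [e2] at h23
      exact absurd h23 CosetTree.not_adj_inl_inl
    · rw [e2] at h23
      obtain ⟨x3, h1, h2⟩ := CosetTree.adj_inl_inr.1 h23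
      exact ⟨x3, by rw [e2, h1], by rw [h2]⟩
  obtain ⟨y4, e4, e3'⟩ : ∃ y4 : G, v4 = Sum.inl (y4 : G ⧸ B) ∧ v3 = Sum.inr (y4 : G ⧸ A) := by
    rcases v4 with v4 | v4
    · rw [e3] at h34
      obtain ⟨y4, h1, h2⟩ := CosetTree.adj_inl_inr.1 h34.symm
      exact ⟨y4, by rw [h1], by rw [e3, h2]⟩
    · rw [e3] at h34
      exact absurd h34 CosetTree.not_adj_inr_inr
  -- first half
  obtain ⟨i, hi⟩ : ∃ i : ℤ, x1⁻¹ * g * x1 = Z ^ i := by
    apply seg2 (x := x1) (y := y0)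
    · exact inr_eq.1 (e1'.symm.trans e1)
    · intro h
      exact n02 (by rw [e0, e2]; exact (inl_eq.2 h).symm)
    · rw [e2] at f2; exact fix_inl.1 f2
    · rw [e1'] at f1; exact fix_inr.1 f1
    · rw [e0] at f0; exact fix_inl.1 f0
  -- second half
  obtain ⟨j, hj⟩ : ∃ j : ℤ, x3⁻¹ * g * x3 = Z ^ j := by
    apply seg2 (x := x3) (y := y4)
    · exact inr_eq.1 (e3.symm.trans e3')
    · intro h
      exact n24 (by rw [e2', e4]; exact (inl_eq.2 h))
    · rw [e2'] at f2; exact fix_inl.1 f2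
    · rw [e3] at f3; exact fix_inr.1 f3
    · rw [e4] at f4; exact fix_inl.1 f4
  set b := x1⁻¹ * x3 with hb
  have hbB : b ∈ B := inl_eq.1 (e2.symm.trans e2')
  have hbA : b ∉ A := by
    intro h
    exact n13 (by rw [e1', e3]; exact inr_eq.2 h)
  have hπ : π b ≠ 1 := fun h => hbA ((mem_A_of_B hbB).2 h)
  have h1 : zq (π b) ^ j = Z ^ i := by
    rw [← conj_Z hbB, conj_zpow, ← hj, ← hi, hb]
    group
  have h2 := (Rep.indep hπ h1).1
  rw [h2, zpow_zero] at hi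
  have : g = x1 * (x1⁻¹ * g * x1) * x1⁻¹ := by group
  rw [this, hi]; group

theorem acylindrical : IsAcylindricalWith G Tr 5 1 := by
  intro u v p hp hl
  have hadj : ∀ i < p.length, Tr.Adj (p.getVert i) (p.getVert (i + 1)) :=
    fun i hi => p.adj_getVert_succ hi
  have hne : ∀ i j, i ≤ p.length → j ≤ p.length → i ≠ j → p.getVert i ≠ p.getVert j := by
    intro i j hi hj hij h
    exact hij (hp.getVert_injOn hi hj h)
  have hsub : {g : G | ∀ x ∈ p.support, g • x = x} ⊆ {1} := by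
    intro g hg
    rw [Set.mem_singleton_iff]
    have hf : ∀ i, g • p.getVert i = p.getVert i := fun i => hg _ (p.getVert_mem_support i)
    rcases h0 : p.getVert 0 with y | y
    · exact seg4 ⟨y, h0⟩ (hadj 0 (by omega)) (hadj 1 (by omega)) (hadj 2 (by omega))
        (hadj 3 (by omega)) (hne _ _ (by omega) (by omega) (by omega))
        (hne _ _ (by omega) (by omega) (by omega)) (hne _ _ (by omega) (by omega) (by omega))
        (hf 0) (hf 1) (hf 2) (hf 3) (hf 4)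
    · have h1 : ∃ y : G ⧸ B, p.getVert 1 = Sum.inl y := by
        rcases h1 : p.getVert 1 with z | z
        · exact ⟨z, rfl⟩
        · have := hadj 0 (by omega)
          rw [h0, zero_add, h1] at this
          exact absurd this CosetTree.not_adj_inr_inr
      exact seg4 h1 (hadj 1 (by omega)) (hadj 2 (by omega)) (hadj 3 (by omega))
        (hadj 4 (by omega)) (hne _ _ (by omega) (by omega) (by omega))
        (hne _ _ (by omega) (by omega) (by omega)) (hne _ _ (by omega) (by omega) (by omega))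
        (hf 1) (hf 2) (hf 3) (hf 4) (hf 5)
  calc {g : G | ∀ x ∈ p.support, g • x = x}.encard ≤ ({1} : Set G).encard :=
        Set.encard_le_encard hsub
    _ = 1 := Set.encard_singleton _
    _ = ((1 : ℕ) : ℕ∞) := by simp

theorem isAcylindrical : IsAcylindrical G Tr := ⟨5, 1, one_pos, acylindrical⟩

theorem no_fixed : ¬ ∃ v : Vx, ∀ g : G, g • v = v := by
  rintro ⟨v, hv⟩
  rcases v with v | v
  · obtain ⟨x, rfl⟩ := QuotientGroup.mk_surjective v
    have h := fix_inl.1 (hv (x * S * x⁻¹))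
    have h2 : x⁻¹ * (x * S * x⁻¹) * x = S := by group
    rw [h2] at h
    exact S_not_B h
  · obtain ⟨x, rfl⟩ := QuotientGroup.mk_surjective v
    have hQ : ∃ q : Q, q ≠ 1 := by
      have := Higman.nontrivial
      exact exists_ne 1
    obtain ⟨q, hq⟩ := hQ
    have h := fix_inr.1 (hv (x * ιL q * x⁻¹))
    have h2 : x⁻¹ * (x * ιL q * x⁻¹) * x = ιL q := by group
    rw [h2, mem_A_of_B (ιL_mem_B q), π_ιL] at h
    exact hq h

theorem no_line : ¬ ∃ ℓ : ℤ → Vx, IsBiinfiniteGeodesic Tr ℓ ∧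
    ∀ g : G, (fun v : Vx => g • v) '' Set.range ℓ = Set.range ℓ := by
  rintro ⟨ℓ, hgeo, hinv⟩
  have hmem : ∀ (g : G) (v : Vx), v ∈ Set.range ℓ → g • v ∈ Set.range ℓ := by
    intro g v hv
    rw [← hinv g]
    exact ⟨v, hv, rfl⟩
  have hadj : ∀ i : ℤ, Tr.Adj (ℓ i) (ℓ (i + 1)) := by
    intro i
    rw [← SimpleGraph.dist_eq_one_iff_adj, hgeo]
    simp
  -- a vertex of type `B` on the line
  obtain ⟨i, x, hx⟩ : ∃ (i : ℤ) (x : G), ℓ i = Sum.inl (x : G ⧸ B) := by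
    rcases h0 : ℓ 0 with y | y
    · obtain ⟨x, rfl⟩ := QuotientGroup.mk_surjective y
      exact ⟨0, x, h0⟩
    · rcases h1 : ℓ 1 with z | z
      · obtain ⟨x, rfl⟩ := QuotientGroup.mk_surjective z
        exact ⟨1, x, h1⟩
      · have := hadj 0
        rw [h0, zero_add, h1] at this
        exact absurd this CosetTree.not_adj_inr_inr
  -- translate it to the base vertex
  have hbase : (Sum.inl ((1 : G) : G ⧸ B) : Vx) ∈ Set.range ℓ := by
    have := hmem x⁻¹ (ℓ i) ⟨i, rfl⟩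
    rwa [hx, smul_inl, inv_mul_cancel] at this
  obtain ⟨j, hj⟩ := hbase
  -- a neighbour of the base vertex on the line
  have hnb : ∃ b ∈ B, (Sum.inr (b : G ⧸ A) : Vx) ∈ Set.range ℓ := by
    have h1 := hadj j
    rw [hj] at h1
    rcases h2 : ℓ (j + 1) with z | z
    · rw [h2] at h1
      exact absurd h1 CosetTree.not_adj_inl_inl
    · rw [h2] at h1
      obtain ⟨b, h3, h4⟩ := CosetTree.adj_inl_inr.1 h1
      rw [QuotientGroup.eq, inv_one, one_mul] at h3
      exact ⟨b, h3, j + 1, by rw [h2, h4]⟩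
  obtain ⟨b, hb, hbr⟩ := hnb
  -- all neighbours are on the line
  have hall : ∀ q : Q, (Sum.inr ((ιL q : G) : G ⧸ A) : Vx) ∈ Set.range ℓ := by
    intro q
    have := hmem (ιL q * b⁻¹) _ hbr
    rwa [smul_inr, inv_mul_cancel_right] at this
  choose f hf using hall
  have hf1 : ∀ q, f q = j - 1 ∨ f q = j + 1 := by
    intro q
    have h1 : Tr.Adj (ℓ j) (ℓ (f q)) := by
      rw [hj, hf q]
      refine CosetTree.adj_inl_inr.2 ⟨ιL q, ?_, rfl⟩
      rw [QuotientGroup.eq, inv_one, one_mul]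
      exact ιL_mem_B q
    rw [← SimpleGraph.dist_eq_one_iff_adj, hgeo] at h1
    omega
  have hinj : Function.Injective f := by
    intro q r hqr
    have h1 : (Sum.inr ((ιL q : G) : G ⧸ A) : Vx) = Sum.inr ((ιL r : G) : G ⧸ A) := by
      rw [← hf q, ← hf r, hqr]
    rw [inr_eq, mem_A_of_B (B.mul_mem (B.inv_mem (ιL_mem_B q)) (ιL_mem_B r)), map_mul, map_inv,
      π_ιL, π_ιL, inv_mul_eq_one] at h1
    exact h1
  have : Infinite Q := Higman.infinite
  have h1 : (Set.range f).Infinite := Set.infinite_range_of_injective hinj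
  apply h1
  apply (Set.toFinite ({j - 1, j + 1} : Set ℤ)).subset
  rintro _ ⟨q, rfl⟩
  rcases hf1 q with h | h <;> simp [h]

theorem nonElementary : IsNonElementary G Tr := ⟨no_fixed, no_line⟩

end Pool.Agent.Work.MP_29a457_al.Exist
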